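import Mathlib

/-!
# Relations with power series coefficients
-/

noncomputable section

namespace MPb07157

open MvPolynomial

namespace YN

/-- Truncation: a combination with power series coefficients is, modulo any power of the ideal of
the variables, a combination with polynomial coefficients. -/
theorem exists_trunc {n k : ℕ} (g : Fin k → MvPolynomial (Fin n) ℂ)
    (α : MvPolynomial (Fin n) ℂ) (c : Fin k → MvPowerSeries (Fin n) ℂ)
    (h : (α : MvPowerSeries (Fin n) ℂ) = ∑ i, c i * (g i : MvPowerSeries (Fin n) ℂ)) (N : ℕ) :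
    α - ∑ i, MvPowerSeries.truncTotal N (c i) * g i ∈ idealOfVars (Fin n) ℂ ^ N := by
  have h1 := congrArg (MvPowerSeries.truncTotalAlgHom (Fin n) ℂ N) h
  rw [map_sum] at h1
  have key : ∀ p : MvPolynomial (Fin n) ℂ,
      MvPowerSeries.truncTotalAlgHom (Fin n) ℂ N (p : MvPowerSeries (Fin n) ℂ)
        = Ideal.Quotient.mk (idealOfVars (Fin n) ℂ ^ N) p := fun p =>
    (MvPowerSeries.truncTotalAlgHom (Fin n) ℂ N).commutes p
  have key2 : ∀ q : MvPowerSeries (Fin n) ℂ,
      MvPowerSeries.truncTotalAlgHom (Fin n) ℂ N q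
        = Ideal.Quotient.mk (idealOfVars (Fin n) ℂ ^ N) (MvPowerSeries.truncTotal N q) :=
    fun q => rfl
  rw [← Ideal.Quotient.mk_eq_mk_iff_sub_mem, map_sum]
  rw [key α] at h1
  rw [h1]
  refine Finset.sum_congr rfl fun i _ => ?_
  rw [map_mul, key (g i), key2 (c i), map_mul]

/-- The ring of formal power series is faithfully flat over the local ring at the origin: if `α` is
a combination of the `g_i` with power series coefficients, then `s α` is a combination of the `g_i`
with polynomial coefficients, for a polynomial `s` with `s(0) ≠ 0`. (Truncate the coefficients, so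
that `α ∈ I + m^N` for all `N`, and use Krull's intersection theorem for the module `ℂ[x]/I`,
`Ideal.mem_iInf_smul_pow_eq_bot_iff`.) -/
theorem exists_local {n k : ℕ} (g : Fin k → MvPolynomial (Fin n) ℂ) (α : MvPolynomial (Fin n) ℂ)
    (c : Fin k → MvPowerSeries (Fin n) ℂ)
    (h : (α : MvPowerSeries (Fin n) ℂ) = ∑ i, c i * (g i : MvPowerSeries (Fin n) ℂ)) :
    ∃ (s : MvPolynomial (Fin n) ℂ) (b : Fin k → MvPolynomial (Fin n) ℂ),
      constantCoeff s ≠ 0 ∧ s * α = ∑ i, b i * g i := by
  let m : Ideal (MvPolynomial (Fin n) ℂ) := idealOfVars (Fin n) ℂ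
  let I : Ideal (MvPolynomial (Fin n) ℂ) := Ideal.span (Set.range g)
  have hx : (Submodule.Quotient.mk α : MvPolynomial (Fin n) ℂ ⧸ I) ∈
      (⨅ i : ℕ, m ^ i • ⊤ : Submodule (MvPolynomial (Fin n) ℂ) (MvPolynomial (Fin n) ℂ ⧸ I)) := by
    rw [Submodule.mem_iInf]
    intro N
    have h2 := exists_trunc g α c h N
    have h3 : ∑ i, MvPowerSeries.truncTotal N (c i) * g i ∈ I :=
      Ideal.sum_mem _ fun i _ => Ideal.mul_mem_left _ _ (Ideal.subset_span ⟨i, rfl⟩)
    have h4 : (Submodule.Quotient.mk α : MvPolynomial (Fin n) ℂ ⧸ I) =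
        (α - ∑ i, MvPowerSeries.truncTotal N (c i) * g i) •
          (Submodule.Quotient.mk (1 : MvPolynomial (Fin n) ℂ) : MvPolynomial (Fin n) ℂ ⧸ I) := by
      rw [← Submodule.Quotient.mk_smul, smul_eq_mul, mul_one]
      rw [eq_comm, ← sub_eq_zero, ← Submodule.Quotient.mk_sub, Submodule.Quotient.mk_eq_zero]
      have h5 : (α - ∑ i, MvPowerSeries.truncTotal N (c i) * g i) - α =
          -(∑ i, MvPowerSeries.truncTotal N (c i) * g i) := by ring
      rw [h5]
      exact I.neg_mem h3
    rw [h4]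
    exact Submodule.smul_mem_smul h2 Submodule.mem_top
  obtain ⟨r, hr⟩ := (Ideal.mem_iInf_smul_pow_eq_bot_iff m _).1 hx
  have h6 : (1 - (r : MvPolynomial (Fin n) ℂ)) * α ∈ I := by
    rw [← Submodule.Quotient.mk_smul, eq_comm, ← sub_eq_zero, ← Submodule.Quotient.mk_sub,
      Submodule.Quotient.mk_eq_zero, smul_eq_mul] at hr
    have h7 : (1 - (r : MvPolynomial (Fin n) ℂ)) * α = α - (r : MvPolynomial (Fin n) ℂ) * α := by
      ring
    rw [h7]
    exact hr
  obtain ⟨b, hb⟩ := (Ideal.mem_span_range_iff_exists_fun).1 h6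
  refine ⟨1 - (r : MvPolynomial (Fin n) ℂ), b, ?_, hb.symm⟩
  have h8 : constantCoeff (r : MvPolynomial (Fin n) ℂ) = 0 := by
    have hle : m ≤ RingHom.ker (constantCoeff (σ := Fin n) (R := ℂ)) := by
      refine Ideal.span_le.2 ?_
      rintro _ ⟨i, rfl⟩
      simp [RingHom.mem_ker]
    exact hle r.2
  rw [map_sub, map_one, h8, sub_zero]
  exact one_ne_zero

end YN

end MPb07157
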