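import Pool.Agent.Lib.MP_b07157_agYN.Defs
import Pool.Agent.Lib.MP_b07157_agQ.NSQ

/-!
# Linear vector fields which kill a form with double points
-/

noncomputable section

namespace MPb07157

open MvPolynomial

namespace YN

namespace NSD

/-- The sum of the exponents except the one with index `i`. -/
def S (i : Fin 3) (v : Fin 3 →₀ ℕ) : ℕ := ∑ j, if j = i then 0 else v j

theorem S_add_single (i m : Fin 3) (v : Fin 3 →₀ ℕ) :
    S i (v + Finsupp.single m 1) ≤ S i v + 1 := by
  unfold S
  rw [Fin.sum_univ_three, Fin.sum_univ_three]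
  fin_cases i <;> fin_cases m <;> simp <;> omega

theorem S_add (i : Fin 3) (v : Fin 3 →₀ ℕ) : S i v + v i = ∑ j, v j := by
  unfold S
  rw [Fin.sum_univ_three, Fin.sum_univ_three]
  fin_cases i <;> simp <;> omega

theorem eval_zero {i : Fin 3} {p : MvPolynomial (Fin 3) ℂ} (h : ∀ v ∈ p.support, 1 ≤ S i v) :
    eval (Pi.single i 1) p = 0 := by
  rw [eval_eq']
  refine Finset.sum_eq_zero fun v hv => ?_
  obtain ⟨j, hj, hv0⟩ : ∃ j, j ≠ i ∧ v j ≠ 0 := by
    by_contra hcon
    push Not at hcon
    have h1 := h v hv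
    have h0 : S i v = 0 := Finset.sum_eq_zero fun j _ => by
      by_cases hj : j = i
      · rw [if_pos hj]
      · rw [if_neg hj, hcon j hj]
    omega
  rw [Finset.prod_eq_zero (Finset.mem_univ j), mul_zero]
  rw [Pi.single_eq_of_ne hj, zero_pow hv0]

theorem der {i : Fin 3} {n : ℕ} {p : MvPolynomial (Fin 3) ℂ}
    (h : ∀ v ∈ p.support, n + 1 ≤ S i v) (m : Fin 3) :
    ∀ v ∈ (pderiv m p).support, n ≤ S i v := by
  intro v hv
  rw [mem_support_iff, coeff_pderiv] at hv
  have h1 := h (v + Finsupp.single m 1) (mem_support_iff.2 (left_ne_zero_of_mul hv))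
  have h2 := S_add_single i m v
  omega

theorem pderiv_lin (l : Fin 3) (c : Fin 3 → ℂ) : pderiv l (NSQ.lin c) = C (c l) := by
  rw [NSQ.lin_apply, map_sum, Finset.sum_eq_single l]
  · rw [Derivation.map_smul, pderiv_X_self, smul_eq_C_mul, mul_one]
  · intro j _ hj
    rw [Derivation.map_smul, pderiv_X_of_ne hj, smul_zero]
  · intro h
    exact absurd (Finset.mem_univ l) h

theorem pderiv_autB (b : Module.Basis (Fin 3) ℂ (Fin 3 → ℂ)) (l : Fin 3)
    (p : MvPolynomial (Fin 3) ℂ) :
    pderiv l (NSQ.autB b p) = ∑ m, C (b m l) * NSQ.autB b (pderiv m p) := by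
  rw [NSQ.autB_apply]
  simp only [NSQ.autB_apply]
  induction p using MvPolynomial.induction_on with
  | C a => simp
  | add p r hp hr => simp only [map_add, hp, hr, mul_add, Finset.sum_add_distrib]
  | mul_X p j hp =>
    rw [map_mul, aeval_X, Derivation.leibniz, hp, pderiv_lin]
    have h1 : ∀ m, C (b m l) * aeval (fun i => NSQ.lin (b i)) (pderiv m (p * X j)) =
        NSQ.lin (b j) * (C (b m l) * aeval (fun i => NSQ.lin (b i)) (pderiv m p)) +
        if m = j then C (b m l) * aeval (fun i => NSQ.lin (b i)) p else 0 := by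
      intro m
      rw [Derivation.leibniz, smul_eq_mul, smul_eq_mul, map_add, map_mul, map_mul, aeval_X]
      by_cases hm : m = j
      · rw [if_pos hm, hm, pderiv_X_self, map_one]
        ring
      · rw [if_neg hm, pderiv_X_of_ne (Ne.symm hm), map_zero]
        ring
    rw [Finset.sum_congr rfl fun m _ => h1 m, Finset.sum_add_distrib, ← Finset.mul_sum,
      Finset.sum_ite_eq' Finset.univ j, if_pos (Finset.mem_univ j), smul_eq_mul, smul_eq_mul]
    ring

/-- The vertex. -/
def vtx (b : Module.Basis (Fin 3) ℂ (Fin 3 → ℂ)) (i : Fin 3) : Fin 3 → ℂ :=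
  fun l => b.repr (Pi.single l 1) i

theorem lin_vtx (b : Module.Basis (Fin 3) ℂ (Fin 3 → ℂ)) (i m : Fin 3) :
    eval (vtx b i) (NSQ.lin (b m)) = (Pi.single i 1 : Fin 3 → ℂ) m := by
  have h : ∑ j, (b m) j • b.repr (Pi.single j 1) = b.repr (b m) := by
    have h1 : b m = ∑ j, (b m) j • (Pi.single j 1 : Fin 3 → ℂ) := by
      rw [← pi_eq_sum_univ' (b m)]
    conv_rhs => rw [h1, map_sum]
    refine Finset.sum_congr rfl fun j _ => ?_
    rw [map_smul]
  have h2 := congrArg (fun f : Fin 3 →₀ ℂ => f i) h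
  rw [b.repr_self] at h2
  simp only [Finsupp.coe_finsetSum, Finset.sum_apply, Finsupp.smul_apply, smul_eq_mul] at h2
  rw [NSQ.lin_apply, map_sum]
  simp only [smul_eval, eval_X]
  unfold vtx
  rw [h2, Finsupp.single_apply, Pi.single_apply]

theorem eval_vtx (b : Module.Basis (Fin 3) ℂ (Fin 3 → ℂ)) (i : Fin 3)
    (p : MvPolynomial (Fin 3) ℂ) :
    eval (vtx b i) (NSQ.autB b p) = eval (Pi.single i 1) p := by
  rw [NSQ.autB_apply]
  induction p using MvPolynomial.induction_on with
  | C a => simp
  | add p r hp hr => simp only [map_add, hp, hr]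
  | mul_X p j hp => rw [map_mul, map_mul, map_mul, hp, aeval_X, lin_vtx, eval_X]

theorem vtx_ne (b : Module.Basis (Fin 3) ℂ (Fin 3 → ℂ)) (i : Fin 3) : vtx b i ≠ 0 := by
  intro h
  have h1 := lin_vtx b i i
  rw [h, Pi.single_eq_same, NSQ.lin_apply, map_sum] at h1
  simp at h1

/-- A double curve has a monomial with a large exponent. -/
theorem exists_mon {F : MvPolynomial (Fin 3) ℂ} {d : ℕ} (hd : 5 ≤ d) (hD : DoubleCurve F)
    (b : Module.Basis (Fin 3) ℂ (Fin 3 → ℂ)) {g : MvPolynomial (Fin 3) ℂ}
    (hg : NSQ.autB b g = F) (hdeg : ∀ v ∈ g.support, ∑ i, v i = d) (i : Fin 3) :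
    ∃ v ∈ g.support, d - 2 ≤ v i := by
  by_contra hcon
  push Not at hcon
  have h3 : ∀ v ∈ g.support, 2 + 1 ≤ S i v := by
    intro v hv
    have h1 := hcon v hv
    have h2 := S_add i v
    have h4 := hdeg v hv
    omega
  have hd1 : ∀ l, eval (vtx b i) (pderiv l F) = 0 := by
    intro l
    rw [← hg, pderiv_autB, map_sum]
    refine Finset.sum_eq_zero fun m _ => ?_
    rw [map_mul, eval_vtx, eval_zero (fun v hv => ?_), mul_zero]
    have := der h3 m v hv
    omega
  obtain ⟨l, l', hl⟩ := hD (vtx b i) (vtx_ne b i) hd1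
  apply hl
  rw [← hg, pderiv_autB, map_sum, map_sum]
  refine Finset.sum_eq_zero fun m _ => ?_
  rw [Derivation.leibniz, pderiv_C, smul_zero, add_zero, smul_eq_mul, map_mul, pderiv_autB,
    map_sum, Finset.sum_eq_zero, mul_zero]
  intro m' _
  rw [map_mul, eval_vtx, eval_zero (der (der h3 m) m'), mul_zero]

end NSD

/-- A linear vector field which kills a form `F` of degree at least `5` such that all singular points
of the curve `F = 0` are double points has divergence zero. The field `v` acts on the linear forms;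
choose a basis `x_0, x_1, x_2` of generalized eigenvectors, with eigenvalues `w_i`; `div v = ∑ w_i`.
The monomial `x^a` is a generalized eigenvector of `v` with eigenvalue `∑ w_i a_i`, so all monomials
of `F` (in these coordinates) satisfy `∑ w_i a_i = 0`. As the vertex `e_i` is not a point of
multiplicity `≥ 3` of `F = 0`, there is a monomial of `F` with `a_i ≥ d - 2`. The matrix of these
three exponents is strictly diagonally dominant (`d - 2 > 2`), so `w = 0`
(`det_ne_zero_of_sum_row_lt_diag`). -/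
theorem ns_of_double {F : MvPolynomial (Fin 3) ℂ} {d : ℕ} (hd : 5 ≤ d) (hF : F.IsHomogeneous d)
    (hF0 : F ≠ 0) (hD : DoubleCurve F) : NS F := by
  classical
  intro a ha haf
  by_contra hdiv
  have hDC := hD
  -- the linear map
  set A : Fin 3 → Fin 3 → ℂ := fun j i => coeff 0 (pderiv i (a j)) with hA
  have haA : ∀ j, a j = NSQ.lin (A j) := fun j => NSQ.eq_lin (ha j)
  set T : Module.End ℂ (Fin 3 → ℂ) := Fintype.linearCombination ℂ A with hT
  set D : Derivation ℂ (MvPolynomial (Fin 3) ℂ) (MvPolynomial (Fin 3) ℂ) := mkDerivation ℂ a with hD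
  have hDT : ∀ c, D (NSQ.lin c) = NSQ.lin (T c) := NSQ.mkDerivation_lin a A haA
  have hDf : D F = 0 := by
    rw [← haf]
    have h0 : ∀ p, (∑ i, a i • (pderiv i : Derivation ℂ (MvPolynomial (Fin 3) ℂ) _)) p =
        ∑ i, a i * pderiv i p := by
      intro p
      simp only [Fin.sum_univ_three, Derivation.add_apply, Derivation.smul_apply, smul_eq_mul]
    have h1 : D = ∑ i, a i • (pderiv i : Derivation ℂ (MvPolynomial (Fin 3) ℂ) _) := by
      apply MvPolynomial.derivation_ext
      intro j
      rw [hD, mkDerivation_X, h0, Finset.sum_eq_single j]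
      · rw [pderiv_X_self, mul_one]
      · intro i _ hij
        rw [pderiv_X_of_ne hij.symm, mul_zero]
      · intro h2
        exact absurd (Finset.mem_univ j) h2
    rw [h1, h0]
  obtain ⟨b, lam, hb⟩ := NSQ.exists_basis T
  have hbD := fun i => NSQ.lin_mem_gen hDT (hb i)
  -- the polynomial in the new coordinates
  set g := (NSQ.autB b).symm F with hg
  have hfg : NSQ.autB b g = F := AlgEquiv.apply_symm_apply _ _
  have hg0 : g ≠ 0 := by
    intro h0
    rw [h0, map_zero] at hfg
    exact hF0 hfg.symm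
  have hgh : g.IsHomogeneous d := by
    rw [hg, NSQ.autB_symm_apply]
    have := hF.aeval (fun i => NSQ.lin (b.repr (Pi.single i 1)))
      (fun i => NSQ.lin_isHomogeneous _)
    rwa [one_mul] at this
  have hsupp : ∀ v ∈ g.support, ∑ i, lam i * v i = 0 := fun v hv =>
    NSQ.sum_eq_zero_of_mem_support b hbD (by rw [hfg]; exact hDf) hv
  have hdeg : ∀ v ∈ g.support, ∑ i, v i = d := by
    intro v hv
    have h1 := hgh (mem_support_iff.1 hv)
    rw [Finsupp.weight_apply, Finsupp.sum_fintype _ _ (fun i => by simp)] at h1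
    simpa using h1
  obtain ⟨v₀, hv₀⟩ : g.support.Nonempty := support_nonempty.2 hg0
  -- the eigenvalues are not all equal
  have hlam : ∃ i j, lam i ≠ lam j := by
    by_contra hcon
    push Not at hcon
    have h1 := hsupp v₀ hv₀
    have h2 : lam 0 * (d : ℂ) = 0 := by
      rw [← hdeg v₀ hv₀, ← h1]
      push_cast
      rw [Finset.mul_sum]
      exact Finset.sum_congr rfl fun i _ => by rw [hcon i 0]
    have h3 : lam 0 = 0 := (mul_eq_zero.1 h2).resolve_right (by exact_mod_cast (show d ≠ 0 by omega))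
    have hnil : IsNilpotent T := by
      have h4 : ∀ i, ∃ k : ℕ, (T ^ k) (b i) = 0 := by
        intro i
        obtain ⟨k, hk⟩ := (Module.End.mem_maxGenEigenspace _ _ _).1 (hb i)
        rw [hcon i 0, h3, zero_smul, sub_zero] at hk
        exact ⟨k, hk⟩
      choose k hk using h4
      refine ⟨∑ i, k i, ?_⟩
      apply b.ext
      intro i
      rw [← Finset.sum_erase_add _ _ (Finset.mem_univ i), pow_add, Module.End.mul_apply, hk,
        map_zero, LinearMap.zero_apply]
    have h5 := (LinearMap.isNilpotent_trace_of_isNilpotent hnil).eq_zero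
    apply hdiv
    have h6 : ∀ i, pderiv i (a i) = C (A i i) := by
      intro i
      have h2 : (pderiv i (a i)).IsHomogeneous 0 := (ha i).pderiv
      exact totalDegree_eq_zero_iff_eq_C.1 (Nat.le_zero.1 h2.totalDegree_le)
    rw [Finset.sum_congr rfl fun i _ => h6 i, ← map_sum]
    have h7 : LinearMap.trace ℂ (Fin 3 → ℂ) T = ∑ i, A i i := by
      rw [LinearMap.trace_eq_matrix_trace ℂ (Pi.basisFun ℂ (Fin 3)), Matrix.trace]
      refine Finset.sum_congr rfl fun i _ => ?_
      rw [Matrix.diag_apply, LinearMap.toMatrix_apply, Pi.basisFun_apply, Pi.basisFun_repr, hT,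
        Fintype.linearCombination_apply_single, one_smul]
    rw [← h7, h5, map_zero]
  choose v hv hvi using fun i => NSD.exists_mon hd hDC b hfg hdeg i
  set A' : Matrix (Fin 3) (Fin 3) ℂ := fun i j => (v i j : ℂ) with hA'
  have hdet : A'.det ≠ 0 := by
    refine det_ne_zero_of_sum_row_lt_diag fun i => ?_
    have h1 : ∀ j, ‖A' i j‖ = (v i j : ℝ) := fun j => by
      rw [hA']
      exact Complex.norm_natCast _
    rw [Finset.sum_congr rfl fun j _ => h1 j, h1 i, ← Nat.cast_sum, Nat.cast_lt]
    have h2 := Finset.sum_erase_add Finset.univ (fun j => v i j) (Finset.mem_univ i)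
    have h3 := hdeg (v i) (hv i)
    have h4 := hvi i
    omega
  have hmul : A'.mulVec lam = 0 := by
    funext i
    rw [Matrix.mulVec, dotProduct, Pi.zero_apply, ← hsupp (v i) (hv i)]
    exact Finset.sum_congr rfl fun j _ => mul_comm _ _
  have h0 := Matrix.eq_zero_of_mulVec_eq_zero hdet hmul
  obtain ⟨i, j, hij⟩ := hlam
  exact hij (by rw [h0]; rfl)

end YN

end MPb07157
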