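import Pool.Agent.Lib.MP_b07157_agYN.Defs

/-!
# Vector fields which kill a form
-/

noncomputable section

namespace MPb07157

open MvPolynomial

namespace YN

/-- A polynomial vector field with `v(F) = 0` and `div v = F^m`. -/
def Bad (F : MvPolynomial (Fin 3) ℂ) (m : ℕ) : Prop :=
  ∃ v : Fin 3 → MvPolynomial (Fin 3) ℂ, ∑ i, v i * pderiv i F = 0 ∧ ∑ i, pderiv i (v i) = F ^ m

namespace BadAaux

/-- Homogeneous components of a product with a homogeneous polynomial. -/
theorem hc_mul {g : MvPolynomial (Fin 3) ℂ} {e : ℕ} (hg : g.IsHomogeneous e)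
    (c : MvPolynomial (Fin 3) ℂ) (j : ℕ) :
    homogeneousComponent (j + e) (c * g) = homogeneousComponent j c * g := by
  classical
  ext m
  rw [coeff_homogeneousComponent, coeff_mul, coeff_mul]
  split_ifs with hm
  · refine Finset.sum_congr rfl fun p hp => ?_
    by_cases h0 : coeff p.2 g = 0
    · rw [h0, mul_zero, mul_zero]
    · have h1 : p.2.degree = e := by
        by_contra hne
        exact h0 (hg.coeff_eq_zero hne)
      have h2 : p.1 + p.2 = m := Finset.HasAntidiagonal.mem_antidiagonal.1 hp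
      have h3 : p.1.degree = j := by
        rw [← h2, map_add, h1] at hm
        omega
      rw [coeff_homogeneousComponent, if_pos h3]
  · symm
    refine Finset.sum_eq_zero fun p hp => ?_
    by_cases h0 : coeff p.2 g = 0
    · rw [h0, mul_zero]
    · have h1 : p.2.degree = e := by
        by_contra hne
        exact h0 (hg.coeff_eq_zero hne)
      have h2 : p.1 + p.2 = m := Finset.HasAntidiagonal.mem_antidiagonal.1 hp
      have h3 : p.1.degree ≠ j := by
        intro h4
        apply hm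
        rw [← h2, map_add, h1, h4]
      rw [coeff_homogeneousComponent, if_neg h3, zero_mul]

theorem hc_pderiv (i : Fin 3) (p : MvPolynomial (Fin 3) ℂ) (n : ℕ) :
    homogeneousComponent n (pderiv i p) = pderiv i (homogeneousComponent (n + 1) p) := by
  classical
  ext m
  rw [coeff_homogeneousComponent, coeff_pderiv, coeff_pderiv, coeff_homogeneousComponent,
    map_add, Finsupp.degree_single]
  by_cases h : m.degree = n
  · rw [if_pos h, if_pos (by omega)]
  · rw [if_neg h, if_neg (by omega), zero_mul]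

theorem hc_of {p : MvPolynomial (Fin 3) ℂ} {n : ℕ} (hp : p.IsHomogeneous n) :
    homogeneousComponent n p = p := by
  rw [homogeneousComponent_of_mem ((mem_homogeneousSubmodule _ _).2 hp), if_pos rfl]

theorem pcomm (i j : Fin 3) (F : MvPolynomial (Fin 3) ℂ) :
    pderiv i (pderiv j F) = pderiv j (pderiv i F) := by
  classical
  ext m
  rw [coeff_pderiv, coeff_pderiv, coeff_pderiv, coeff_pderiv, add_right_comm m]
  by_cases h : i = j
  · subst h
    rfl
  · simp only [Finsupp.coe_add, Pi.add_apply, Finsupp.single_apply, h, Ne.symm h, if_false,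
      add_zero]
    ring

theorem eulerF {F : MvPolynomial (Fin 3) ℂ} {d : ℕ} (hF : F.IsHomogeneous d) :
    X 0 * pderiv 0 F + X 1 * pderiv 1 F + X 2 * pderiv 2 F = C (d : ℂ) * F := by
  have h1 := hF.sum_X_mul_pderiv
  rw [Fin.sum_univ_three, nsmul_eq_mul] at h1
  rw [h1, map_natCast]

theorem C3 : (C (3 : ℂ) : MvPolynomial (Fin 3) ℂ) = 3 := map_ofNat C 3

end BadAaux

open BadAaux

/-- The field may be assumed homogeneous. -/
theorem Bad.homog {F : MvPolynomial (Fin 3) ℂ} {d m : ℕ} (hF : F.IsHomogeneous d)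
    (h : Bad F m) : ∃ v : Fin 3 → MvPolynomial (Fin 3) ℂ,
      (∀ i, (v i).IsHomogeneous (d * m + 1)) ∧ ∑ i, v i * pderiv i F = 0 ∧
      ∑ i, pderiv i (v i) = F ^ m := by
  obtain ⟨v, h1, h2⟩ := h
  refine ⟨fun i => homogeneousComponent (d * m + 1) (v i),
    fun i => homogeneousComponent_isHomogeneous _ _, ?_, ?_⟩
  · have h3 := congrArg (homogeneousComponent (d * m + 1 + (d - 1))) h1
    rw [map_sum, map_zero] at h3
    rw [← h3]
    exact Finset.sum_congr rfl fun i _ => (hc_mul hF.pderiv _ _).symm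
  · have h3 := congrArg (homogeneousComponent (d * m)) h2
    rw [map_sum, hc_of (hF.pow m)] at h3
    rw [← h3]
    exact Finset.sum_congr rfl fun i _ => (hc_pderiv i _ _).symm

/-- `v = a - (g/d) x`, `g = (∑ a_i ∂_i F) / F`. -/
theorem bad_of_not_nonEx {F : MvPolynomial (Fin 3) ℂ} {d : ℕ} (hd : 0 < d)
    (hF : F.IsHomogeneous d) (hF0 : F ≠ 0) (h : ¬ NonEx F (3 / (d : ℂ))) : ∃ m, Bad F m := by
  unfold NonEx at h
  push Not at h
  obtain ⟨m, a, ha⟩ := h
  refine ⟨m, ?_⟩
  have hd0 : (d : ℂ) ≠ 0 := by exact_mod_cast hd.ne'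
  set α : ℂ := 3 / (d : ℂ) + m with hα
  have hα0 : α ≠ 0 := by
    intro h0
    have h1 : (3 : ℂ) + m * d = 0 := by
      have h2 : α * d = 0 := by rw [h0, zero_mul]
      rw [hα, add_mul, div_mul_cancel₀ _ hd0] at h2
      exact h2
    have h2 : ((3 + m * d : ℕ) : ℂ) = 0 := by
      push_cast
      exact h1
    have h3 : 3 + m * d = 0 := by exact_mod_cast h2
    omega
  -- the homogeneous part of the field
  set b : Fin 3 → MvPolynomial (Fin 3) ℂ := fun i => homogeneousComponent (d * m + 1) (a i)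
    with hb
  have hbh : ∀ i, (b i).IsHomogeneous (d * m + 1) := fun i =>
    homogeneousComponent_isHomogeneous _ _
  have hb1 : F * ∑ i, pderiv i (b i) - C α * ∑ i, b i * pderiv i F = F ^ (m + 1) := by
    have e1 : (F ^ (m + 1)).IsHomogeneous (d * m + d) := by
      have e2 := hF.pow (m + 1)
      rwa [mul_add, mul_one] at e2
    have e3 := congrArg (homogeneousComponent (d * m + d)) ha
    rw [map_sum, hc_of e1] at e3
    rw [← e3, Finset.mul_sum, Finset.mul_sum, ← Finset.sum_sub_distrib]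
    refine Finset.sum_congr rfl fun i _ => ?_
    have e4 : homogeneousComponent (d * m + d) (F * pderiv i (a i)) = F * pderiv i (b i) := by
      rw [mul_comm F, hc_mul hF, hc_pderiv, mul_comm]
    have e5 : homogeneousComponent (d * m + d) (C α * (a i * pderiv i F)) =
        C α * (b i * pderiv i F) := by
      have e6 : d * m + d = d * m + 1 + (d - 1) := by omega
      rw [homogeneousComponent_C_mul, e6, hc_mul hF.pderiv]
    rw [map_sub, e4, e5]
  set g : MvPolynomial (Fin 3) ℂ := C α⁻¹ * (∑ i, pderiv i (b i) - F ^ m) with hg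
  have hCα : C α * (C α⁻¹ : MvPolynomial (Fin 3) ℂ) = 1 := by
    rw [← C_mul, mul_inv_cancel₀ hα0, C_1]
  have hg1 : F * g = ∑ i, b i * pderiv i F := by
    have e1 : (C α : MvPolynomial (Fin 3) ℂ) ≠ 0 := by
      rw [Ne, C_eq_zero]
      exact hα0
    apply mul_left_cancel₀ e1
    rw [hg]
    linear_combination (F * (∑ i, pderiv i (b i) - F ^ m)) * hCα + hb1
  have hg2 : C α * g = ∑ i, pderiv i (b i) - F ^ m := by
    rw [hg, ← mul_assoc, hCα, one_mul]
  have hgh : g.IsHomogeneous (d * m) := by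
    rw [hg]
    have e1 : (∑ i, pderiv i (b i) - F ^ m).IsHomogeneous (d * m) := by
      apply IsHomogeneous.sub
      · apply IsHomogeneous.sum
        intro i _
        have e2 := (hbh i).pderiv (i := i)
        rwa [Nat.add_sub_cancel] at e2
      · exact hF.pow m
    have e3 := (isHomogeneous_C (Fin 3) α⁻¹).mul e1
    rwa [zero_add] at e3
  have hE := eulerF hgh
  have hEF := eulerF hF
  have hCd : C (d : ℂ) * (C (d : ℂ)⁻¹ : MvPolynomial (Fin 3) ℂ) = 1 := by
    rw [← C_mul, mul_inv_cancel₀ hd0, C_1]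
  refine ⟨fun i => b i - C (d : ℂ)⁻¹ * g * X i, ?_, ?_⟩
  · rw [Fin.sum_univ_three] at hg1 ⊢
    linear_combination (-C (d : ℂ)⁻¹ * g) * hEF - (F * g) * hCd - hg1
  · have e1 : ∀ i : Fin 3, pderiv i (b i - C (d : ℂ)⁻¹ * g * X i) =
        pderiv i (b i) - C (d : ℂ)⁻¹ * (g + X i * pderiv i g) := by
      intro i
      rw [map_sub, mul_assoc, pderiv_C_mul, pderiv_mul, pderiv_X_self]
      ring
    rw [Finset.sum_congr rfl fun i _ => e1 i, Fin.sum_univ_three]
    rw [Fin.sum_univ_three] at hg2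
    have e2 : (C α : MvPolynomial (Fin 3) ℂ) = C (d : ℂ)⁻¹ * 3 + (m : MvPolynomial (Fin 3) ℂ) := by
      rw [hα, map_add, div_eq_mul_inv, C_mul, mul_comm (C (3 : ℂ)), map_natCast, C3]
    have e3 : (C ((d * m : ℕ) : ℂ) : MvPolynomial (Fin 3) ℂ) =
        C (d : ℂ) * (m : MvPolynomial (Fin 3) ℂ) := by
      rw [Nat.cast_mul, C_mul, map_natCast C m]
    rw [e2] at hg2
    rw [e3] at hE
    linear_combination (-C (d : ℂ)⁻¹) * hE - hg2 - ((m : MvPolynomial (Fin 3) ℂ) * g) * hCd

/-- If `v = grad F × b`, then `div v = -grad F · curl b`, and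
`curl b + (1/d) F^m x` kills `F` and has divergence `((3 + d m)/d) F^m`. -/
theorem Bad.pred {F : MvPolynomial (Fin 3) ℂ} {d m : ℕ} (hd : 0 < d) (hF : F.IsHomogeneous d)
    {v : Fin 3 → MvPolynomial (Fin 3) ℂ} (hk : IsKos F v)
    (hdiv : ∑ i, pderiv i (v i) = F ^ (m + 1)) : Bad F m := by
  obtain ⟨b, hb⟩ := hk
  have hd0 : (d : ℂ) ≠ 0 := by exact_mod_cast hd.ne'
  have h00 : ((3 : ℂ) + d * m) ≠ 0 := by
    intro h0
    have h2 : ((3 + d * m : ℕ) : ℂ) = 0 := by
      push_cast
      exact h0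
    have h3 : 3 + d * m = 0 := by exact_mod_cast h2
    omega
  have h0 : v 0 = pderiv 1 F * b 2 - pderiv 2 F * b 1 := hb 0
  have h1 : v 1 = pderiv 2 F * b 0 - pderiv 0 F * b 2 := hb 1
  have h2 : v 2 = pderiv 0 F * b 1 - pderiv 1 F * b 0 := hb 2
  rw [Fin.sum_univ_three, h0, h1, h2] at hdiv
  simp only [map_sub, pderiv_mul] at hdiv
  rw [pcomm 1 0 F, pcomm 2 0 F, pcomm 2 1 F] at hdiv
  have hEF := eulerF hF
  have hE := eulerF (hF.pow m)
  have e3 : (C ((d * m : ℕ) : ℂ) : MvPolynomial (Fin 3) ℂ) =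
      C (d : ℂ) * (m : MvPolynomial (Fin 3) ℂ) := by
    rw [Nat.cast_mul, C_mul, map_natCast C m]
  rw [e3] at hE
  set c : ℂ := (3 + (d : ℂ) * m)⁻¹ with hc
  have hcc : (C c : MvPolynomial (Fin 3) ℂ) * (3 + C (d : ℂ) * (m : MvPolynomial (Fin 3) ℂ)) =
      1 := by
    have e4 : (3 + C (d : ℂ) * (m : MvPolynomial (Fin 3) ℂ) : MvPolynomial (Fin 3) ℂ) =
        C (3 + (d : ℂ) * m) := by
      rw [C_add, C_mul, map_natCast C m, C3]
    rw [e4, ← C_mul, hc, inv_mul_cancel₀ h00, C_1]
  refine ⟨![C c * (C (d : ℂ) * (pderiv 1 (b 2) - pderiv 2 (b 1)) + F ^ m * X 0),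
    C c * (C (d : ℂ) * (pderiv 2 (b 0) - pderiv 0 (b 2)) + F ^ m * X 1),
    C c * (C (d : ℂ) * (pderiv 0 (b 1) - pderiv 1 (b 0)) + F ^ m * X 2)], ?_, ?_⟩
  · rw [Fin.sum_univ_three]
    simp only [Matrix.cons_val_zero, Matrix.cons_val_one, Matrix.cons_val]
    rw [pow_succ] at hdiv
    linear_combination (C c * F ^ m) * hEF - (C c * C (d : ℂ)) * hdiv
  · rw [Fin.sum_univ_three]
    simp only [Matrix.cons_val_zero, Matrix.cons_val_one, Matrix.cons_val]
    simp only [pderiv_C_mul, map_add, map_sub, pderiv_mul (g := X _), pderiv_X_self]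
    rw [pcomm 1 0 (b 2), pcomm 2 0 (b 1), pcomm 2 1 (b 0)]
    linear_combination (C c) * hE + (F ^ m) * hcc

end YN

end MPb07157
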