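import Pool.Agent.Lib.MP_b07157_agYN.Defs

/-!
# Vector fields which kill a form, in a chart
-/

noncomputable section

namespace MPb07157

open MvPolynomial

namespace YN

open PC SI

/-- The derivatives of the germ in the chart. -/
private theorem pderiv_gch (F : MvPolynomial (Fin 3) ℂ) (q : Fin 3 → ℂ) (j₀ : Fin 3) (i : Fin 2) :
    pderiv i (gch F q j₀) = gch (pderiv (j₀.succAbove i) F) q j₀ := by
  unfold gch
  induction F using MvPolynomial.induction_on with
  | C a => simp
  | add p r hp hr => simp only [map_add, hp, hr]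
  | mul_X p l hp =>
    rw [map_mul, aeval_X, Derivation.leibniz, hp, Derivation.leibniz, map_add, smul_eq_mul,
      smul_eq_mul, smul_eq_mul, smul_eq_mul, map_mul, map_mul, aeval_X]
    rcases Fin.eq_self_or_eq_succAbove j₀ l with rfl | ⟨m, rfl⟩
    · rw [Fin.insertNth_apply_same, pderiv_one, pderiv_X_of_ne (Fin.succAbove_ne _ _).symm]
      simp
    · rw [Fin.insertNth_apply_succAbove, map_add, pderiv_C, add_zero]
      by_cases h : m = i
      · subst h
        rw [pderiv_X_self, pderiv_X_self, map_one]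
      · rw [pderiv_X_of_ne h, pderiv_X_of_ne (fun hh => h (Fin.succAbove_right_injective hh))]
        simp

private theorem gch_mul (F G : MvPolynomial (Fin 3) ℂ) (q : Fin 3 → ℂ) (j₀ : Fin 3) :
    gch (F * G) q j₀ = gch F q j₀ * gch G q j₀ := by
  unfold gch
  exact map_mul _ _ _

private theorem gch_add (F G : MvPolynomial (Fin 3) ℂ) (q : Fin 3 → ℂ) (j₀ : Fin 3) :
    gch (F + G) q j₀ = gch F q j₀ + gch G q j₀ := by
  unfold gch
  exact map_add _ _ _

private theorem gch_zero (q : Fin 3 → ℂ) (j₀ : Fin 3) :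
    gch (0 : MvPolynomial (Fin 3) ℂ) q j₀ = 0 := by
  unfold gch
  exact map_zero _

private theorem gch_pow (F : MvPolynomial (Fin 3) ℂ) (m : ℕ) (q : Fin 3 → ℂ) (j₀ : Fin 3) :
    gch (F ^ m) q j₀ = gch F q j₀ ^ m := by
  unfold gch
  exact map_pow _ _ _

private theorem gch_X_same (q : Fin 3 → ℂ) (j₀ : Fin 3) :
    gch (X j₀ : MvPolynomial (Fin 3) ℂ) q j₀ = 1 := by
  unfold gch
  rw [aeval_X, Fin.insertNth_apply_same]

private theorem gch_X_succ (q : Fin 3 → ℂ) (j₀ : Fin 3) (l : Fin 2) :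
    gch (X (j₀.succAbove l) : MvPolynomial (Fin 3) ℂ) q j₀ = X l + C (q (j₀.succAbove l)) := by
  unfold gch
  rw [aeval_X, Fin.insertNth_apply_succAbove]

private theorem gch_natCast (k : ℕ) (q : Fin 3 → ℂ) (j₀ : Fin 3) :
    gch (k : MvPolynomial (Fin 3) ℂ) q j₀ = k := by
  unfold gch
  exact map_natCast _ _

/-- Euler's formula in the chart. -/
private theorem euler_gch {F : MvPolynomial (Fin 3) ℂ} {d : ℕ} (hF : F.IsHomogeneous d)
    (q : Fin 3 → ℂ) (j₀ : Fin 3) :
    gch (pderiv j₀ F) q j₀ + ((X 0 + C (q (j₀.succAbove 0))) * gch (pderiv (j₀.succAbove 0) F) q j₀ +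
      (X 1 + C (q (j₀.succAbove 1))) * gch (pderiv (j₀.succAbove 1) F) q j₀) =
      (d : MvPolynomial (Fin 2) ℂ) * gch F q j₀ := by
  have h := hF.sum_X_mul_pderiv
  rw [Fin.sum_univ_succAbove _ j₀, Fin.sum_univ_two, nsmul_eq_mul] at h
  have h1 := congrArg (fun p => gch p q j₀) h
  simp only [gch_add, gch_mul, gch_X_same, gch_X_succ, gch_natCast, one_mul] at h1
  exact h1

/-- The equations in the chart (Euler's formula for `F` and for `v_{j₀}`; `pderiv l (gch H) =
gch (pderiv (succAbove l) H)`). -/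
theorem chart_eqs {F : MvPolynomial (Fin 3) ℂ} {d m : ℕ} (hF : F.IsHomogeneous d)
    {v : Fin 3 → MvPolynomial (Fin 3) ℂ} (hv : ∀ i, (v i).IsHomogeneous (d * m + 1))
    (hvF : ∑ i, v i * pderiv i F = 0) (hdiv : ∑ i, pderiv i (v i) = F ^ m) (q : Fin 3 → ℂ)
    (j₀ : Fin 3) :
    (d : MvPolynomial (Fin 2) ℂ) * gch (v j₀) q j₀ * gch F q j₀ +
        ∑ l : Fin 2, (gch (v (j₀.succAbove l)) q j₀ -
          (X l + C (q (j₀.succAbove l))) * gch (v j₀) q j₀) * pderiv l (gch F q j₀) = 0 ∧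
      ((d * m + 3 : ℕ) : MvPolynomial (Fin 2) ℂ) * gch (v j₀) q j₀ +
        ∑ l : Fin 2, pderiv l (gch (v (j₀.succAbove l)) q j₀ -
          (X l + C (q (j₀.succAbove l))) * gch (v j₀) q j₀) = gch F q j₀ ^ m := by
  have e1 := euler_gch hF q j₀
  have e2 := euler_gch (hv j₀) q j₀
  have e3 := congrArg (fun p => gch p q j₀) hvF
  have e4 := congrArg (fun p => gch p q j₀) hdiv
  rw [Fin.sum_univ_succAbove _ j₀, Fin.sum_univ_two] at e3 e4
  simp only [gch_add, gch_mul, gch_zero, gch_pow] at e3 e4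
  constructor
  · rw [Fin.sum_univ_two, pderiv_gch, pderiv_gch]
    linear_combination e3 - gch (v j₀) q j₀ * e1
  · have h1 : ∀ l : Fin 2, pderiv l (gch (v (j₀.succAbove l)) q j₀ -
        (X l + C (q (j₀.succAbove l))) * gch (v j₀) q j₀) =
        gch (pderiv (j₀.succAbove l) (v (j₀.succAbove l))) q j₀ - gch (v j₀) q j₀ -
        (X l + C (q (j₀.succAbove l))) * gch (pderiv (j₀.succAbove l) (v j₀)) q j₀ := by
      intro l
      rw [map_sub, Derivation.leibniz, map_add, pderiv_X_self, pderiv_C, pderiv_gch, pderiv_gch,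
        smul_eq_mul, smul_eq_mul]
      ring
    rw [Fin.sum_univ_two, h1, h1]
    push_cast at e2 ⊢
    linear_combination e4 - e2

end YN

end MPb07157
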