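import Pool.Agent.Lib.MP_b07157_agYN.Defs
import Pool.Agent.Lib.MP_b07157_agYN.Krull
import Pool.Agent.Lib.MP_b07157_agQ.HomDvd

/-!
# Koszul relations near a point
-/

noncomputable section

namespace MPb07157

open MvPolynomial

namespace YN

open PC SI

/-! ## The chart -/

private theorem bpderiv_gch (F : MvPolynomial (Fin 3) ℂ) (q : Fin 3 → ℂ) (j₀ : Fin 3) (i : Fin 2) :
    pderiv i (gch F q j₀) = gch (pderiv (j₀.succAbove i) F) q j₀ := by
  unfold gch
  induction F using MvPolynomial.induction_on with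
  | C a => simp
  | add p r hp hr => simp only [map_add, hp, hr]
  | mul_X p l hp =>
    rw [map_mul, aeval_X, Derivation.leibniz, hp, Derivation.leibniz, map_add, smul_eq_mul,
      smul_eq_mul, smul_eq_mul, smul_eq_mul, map_mul, map_mul, aeval_X]
    rcases Fin.eq_self_or_eq_succAbove j₀ l with rfl | ⟨m, rfl⟩
    · rw [Fin.insertNth_apply_same, pderiv_one, pderiv_X_of_ne (Fin.succAbove_ne _ _).symm]
      simp
    · rw [Fin.insertNth_apply_succAbove, map_add, pderiv_C, add_zero]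
      by_cases h : m = i
      · subst h
        rw [pderiv_X_self, pderiv_X_self, map_one]
      · rw [pderiv_X_of_ne h, pderiv_X_of_ne (fun hh => h (Fin.succAbove_right_injective hh))]
        simp

/-- The chart as an algebra homomorphism. -/
private def gc (q : Fin 3 → ℂ) (j₀ : Fin 3) : MvPolynomial (Fin 3) ℂ →ₐ[ℂ] MvPolynomial (Fin 2) ℂ :=
  aeval (j₀.insertNth (α := fun _ => MvPolynomial (Fin 2) ℂ) 1
    fun i => X i + C (q (j₀.succAbove i)))

private theorem gch_gc (F : MvPolynomial (Fin 3) ℂ) (q : Fin 3 → ℂ) (j₀ : Fin 3) :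
    gch F q j₀ = gc q j₀ F := rfl

private theorem gc_X_same (q : Fin 3 → ℂ) (j₀ : Fin 3) : gc q j₀ (X j₀) = 1 := by
  unfold gc
  rw [aeval_X, Fin.insertNth_apply_same]

private theorem gc_X_succ (q : Fin 3 → ℂ) (j₀ : Fin 3) (l : Fin 2) :
    gc q j₀ (X (j₀.succAbove l)) = X l + C (q (j₀.succAbove l)) := by
  unfold gc
  rw [aeval_X, Fin.insertNth_apply_succAbove]

private theorem gc_C (q : Fin 3 → ℂ) (j₀ : Fin 3) (a : ℂ) : gc q j₀ (C a) = C a := by
  unfold gc
  rw [aeval_C, MvPolynomial.algebraMap_eq]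

/-- The value at the centre. -/
private theorem constantCoeff_gc {q : Fin 3 → ℂ} {j₀ : Fin 3} (hq : q j₀ = 1)
    (G : MvPolynomial (Fin 3) ℂ) : constantCoeff (gc q j₀ G) = eval q G := by
  induction G using MvPolynomial.induction_on with
  | C a => rw [gc_C, constantCoeff_C, eval_C]
  | add p r hp hr => rw [map_add, map_add, map_add, hp, hr]
  | mul_X p l hp =>
    rw [map_mul, map_mul, map_mul, hp, eval_X]
    rcases Fin.eq_self_or_eq_succAbove j₀ l with rfl | ⟨m, rfl⟩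
    · rw [gc_X_same, hq, map_one]
    · rw [gc_X_succ, map_add, constantCoeff_X, constantCoeff_C, zero_add]

/-- A form which vanishes in the chart is zero. -/
private theorem eq_zero_of_gc {q : Fin 3 → ℂ} {j₀ : Fin 3} {G : MvPolynomial (Fin 3) ℂ} {e : ℕ}
    (hG : G.IsHomogeneous e) (h : gc q j₀ G = 0) : G = 0 := by
  have hX : (X j₀ : MvPolynomial (Fin 3) ℂ) ≠ 0 := X_ne_zero _
  refine (mul_eq_zero.1 ?_).resolve_left hX
  refine MvPolynomial.funext fun x => ?_
  rw [map_mul, map_zero, eval_X]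
  by_cases hx : x j₀ = 0
  · rw [hx, zero_mul]
  · have h1 : eval ((x j₀)⁻¹ • x) G = (x j₀)⁻¹ ^ e * eval x G := by
      rw [eval_eq', eval_eq', Finset.mul_sum]
      refine Finset.sum_congr rfl fun v hv => ?_
      have h2 : ∑ i, v i = e := by
        have h3 := hG (mem_support_iff.1 hv)
        rw [← h3, Finsupp.weight_apply, Finsupp.sum_fintype _ _ (by simp)]
        simp
      simp only [Pi.smul_apply, smul_eq_mul, mul_pow]
      rw [Finset.prod_mul_distrib, Finset.prod_pow_eq_pow_sum, h2]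
      ring
    have h4 : eval ((x j₀)⁻¹ • x) G = 0 := by
      have h5 : eval (fun l : Fin 2 => (x j₀)⁻¹ * x (j₀.succAbove l) - q (j₀.succAbove l))
          (gc q j₀ G) = eval ((x j₀)⁻¹ • x) G := by
        clear h h1 hG
        induction G using MvPolynomial.induction_on with
        | C a => rw [gc_C, eval_C, eval_C]
        | add p r hp hr => rw [map_add, map_add, map_add, hp, hr]
        | mul_X p l hp =>
          rw [map_mul, map_mul, map_mul, hp, eval_X]
          rcases Fin.eq_self_or_eq_succAbove j₀ l with rfl | ⟨m, rfl⟩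
          · rw [gc_X_same, map_one, Pi.smul_apply, smul_eq_mul, inv_mul_cancel₀ hx]
          · rw [gc_X_succ, map_add, eval_X, eval_C, sub_add_cancel, Pi.smul_apply, smul_eq_mul]
      rw [← h5, h, map_zero]
    rw [h4] at h1
    have h6 : eval x G = 0 := by
      rcases mul_eq_zero.1 h1.symm with h7 | h7
      · exact absurd h7 (pow_ne_zero _ (inv_ne_zero hx))
      · exact h7
    rw [h6, mul_zero]

/-- Homogenization in degree `n`. -/
private def hmg (q : Fin 3 → ℂ) (j₀ : Fin 3) (n : ℕ) (p : MvPolynomial (Fin 2) ℂ) :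
    MvPolynomial (Fin 3) ℂ :=
  ∑ v ∈ p.support, C (coeff v p) * X j₀ ^ (n - (v 0 + v 1)) *
    ∏ l : Fin 2, (X (j₀.succAbove l) - C (q (j₀.succAbove l)) * X j₀) ^ v l

private theorem hmg_hom (q : Fin 3 → ℂ) (j₀ : Fin 3) {n : ℕ} {p : MvPolynomial (Fin 2) ℂ}
    (hn : p.totalDegree ≤ n) : (hmg q j₀ n p).IsHomogeneous n := by
  unfold hmg
  refine IsHomogeneous.sum _ _ _ fun v hv => ?_
  have h1 : v 0 + v 1 ≤ n := by
    have h2 := le_totalDegree hv
    rw [Finsupp.sum_fintype _ _ (fun _ => rfl), Fin.sum_univ_two] at h2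
    omega
  have h3 : ∀ l : Fin 2, ((X (j₀.succAbove l) - C (q (j₀.succAbove l)) * X j₀ :
      MvPolynomial (Fin 3) ℂ)).IsHomogeneous 1 := fun l =>
    (isHomogeneous_X _ _).sub ((isHomogeneous_C_mul_X _ _))
  have h4 : (∏ l : Fin 2, (X (j₀.succAbove l) - C (q (j₀.succAbove l)) * X j₀ :
      MvPolynomial (Fin 3) ℂ) ^ v l).IsHomogeneous (v 0 + v 1) := by
    rw [Fin.prod_univ_two]
    have h5 := ((h3 0).pow (v 0)).mul ((h3 1).pow (v 1))
    rwa [one_mul, one_mul] at h5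
  have h6 := ((isHomogeneous_C (Fin 3) (coeff v p)).mul
    ((isHomogeneous_X ℂ j₀).pow (n - (v 0 + v 1)))).mul h4
  have h7 : 0 + 1 * (n - (v 0 + v 1)) + (v 0 + v 1) = n := by omega
  rwa [h7] at h6

private theorem gc_hmg (q : Fin 3 → ℂ) (j₀ : Fin 3) (n : ℕ) (p : MvPolynomial (Fin 2) ℂ) :
    gc q j₀ (hmg q j₀ n p) = p := by
  unfold hmg
  conv_rhs => rw [← support_sum_monomial_coeff p]
  rw [map_sum]
  refine Finset.sum_congr rfl fun v _ => ?_
  rw [map_mul, map_mul, map_pow, gc_C, gc_X_same, one_pow, mul_one, map_prod, monomial_eq,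
    Finsupp.prod_fintype _ _ (fun _ => pow_zero _)]
  congr 1
  refine Finset.prod_congr rfl fun l _ => ?_
  rw [map_pow, map_sub, map_mul, gc_C, gc_X_same, gc_X_succ, mul_one, add_sub_cancel_right]

/-! ## Algebra -/

private theorem split_rel {A B w₁ w₂ : MvPolynomial (Fin 3) ℂ} (h : w₁ * A + w₂ * B = 0)
    (hA : A ≠ 0) : ∃ D E, D ∣ A ∧ D ∣ B ∧ D * w₁ = -(E * B) ∧ D * w₂ = E * A := by
  obtain ⟨A', B', D, h1, h2, h3⟩ := UniqueFactorizationMonoid.exists_reduced_factors A hA B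
  have hD : D ≠ 0 := by
    rintro rfl
    exact hA (by rw [← h2, zero_mul])
  have hA' : A' ≠ 0 := by
    rintro rfl
    exact hA (by rw [← h2, mul_zero])
  have h4 : w₁ * A' + w₂ * B' = 0 := by
    refine (mul_eq_zero.1 ?_).resolve_left hD
    rw [← h, ← h2, ← h3]
    ring
  have h5 : A' ∣ w₂ * B' := ⟨-w₁, by linear_combination h4⟩
  obtain ⟨E, h6⟩ := h1.dvd_of_dvd_mul_right h5
  have h7 : w₁ = -(E * B') := by
    have h8 : A' * (w₁ + E * B') = 0 := by
      rw [h6] at h4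
      linear_combination h4
    have h9 := (mul_eq_zero.1 h8).resolve_left hA'
    linear_combination h9
  refine ⟨D, E, ⟨A', h2.symm⟩, ⟨B', h3.symm⟩, ?_, ?_⟩
  · rw [h7, ← h3]; ring
  · rw [h6, ← h2]; ring

private theorem split_rel' {A B w₁ w₂ : MvPolynomial (Fin 3) ℂ} (h : w₁ * A + w₂ * B = 0)
    (hA : A ≠ 0 ∨ B ≠ 0) : ∃ D E, D ∣ A ∧ D ∣ B ∧ D * w₁ = -(E * B) ∧ D * w₂ = E * A := by
  rcases hA with hA | hB
  · exact split_rel h hA
  · obtain ⟨D, E, h1, h2, h3, h4⟩ := split_rel (A := B) (B := A) (w₁ := w₂) (w₂ := w₁)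
      (by linear_combination h) hB
    exact ⟨D, -E, h2, h1, by rw [h4]; ring, by rw [h3]; ring⟩

/-- A common divisor of powers of the two variables is a unit. -/
private theorem const_ne_zero_of_dvd {p : P2} {N : ℕ}
    (h0 : p ∣ (MvPowerSeries.X 0 : P2) ^ N) (h1 : p ∣ (MvPowerSeries.X 1 : P2) ^ N) :
    MvPowerSeries.constantCoeff p ≠ 0 := by
  obtain ⟨A, hA⟩ := h0
  obtain ⟨B, hB⟩ := h1
  have h2 : (MvPowerSeries.X 1 : P2) ^ N * A = (MvPowerSeries.X 0 : P2) ^ N * B := by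
    rw [hA, hB]; ring
  have h3 : (MvPowerSeries.X 0 : P2) ^ N ∣ A := by
    rw [MvPowerSeries.X_pow_dvd_iff]
    intro m hm
    have h4 : MvPowerSeries.coeff (m + Finsupp.single 1 N) ((MvPowerSeries.X 1 : P2) ^ N * A) =
        MvPowerSeries.coeff m A := by
      rw [MvPowerSeries.X_pow_eq, add_comm, MvPowerSeries.coeff_add_monomial_mul, one_mul]
    rw [← h4, h2]
    have h5 : (MvPowerSeries.X 0 : P2) ^ N ∣ (MvPowerSeries.X 0 : P2) ^ N * B := dvd_mul_right _ _
    rw [MvPowerSeries.X_pow_dvd_iff] at h5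
    refine h5 _ ?_
    rw [Finsupp.add_apply, Finsupp.single_apply, if_neg (by decide), add_zero]
    exact hm
  obtain ⟨A1, hA1⟩ := h3
  have h6 : (MvPowerSeries.X 0 : P2) ^ N * (p * A1 - 1) = 0 := by
    rw [mul_sub, mul_one]
    conv_lhs => rw [sub_eq_add_neg]; enter [2]; rw [hA, hA1]
    ring
  have h7 : (MvPowerSeries.X 0 : P2) ^ N ≠ 0 := by
    intro h8
    have h9 := congrArg (MvPowerSeries.coeff (Finsupp.single 0 N)) h8
    rw [MvPowerSeries.X_pow_eq, MvPowerSeries.coeff_monomial_same, map_zero] at h9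
    exact one_ne_zero h9
  have h10 : p * A1 = 1 := by
    have := (mul_eq_zero.1 h6).resolve_left h7
    exact sub_eq_zero.1 this
  intro h11
  have h12 := congrArg (MvPowerSeries.constantCoeff (σ := Fin 2) (R := ℂ)) h10
  rw [map_mul, h11, zero_mul, map_one] at h12
  exact zero_ne_one h12

private theorem idx_sum {R : Type} [CommRing R] (P : Fin 3 → R) (j₀ : Fin 3) (b : Fin 2 → R) :
    ∃ B₁ B₂, ∑ l : Fin 2, b l * P (j₀.succAbove l) = P (j₀ + 1) * B₁ + P (j₀ + 2) * B₂ := by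
  rcases (show j₀ = 0 ∨ j₀ = 1 ∨ j₀ = 2 by revert j₀; decide) with rfl | rfl | rfl
  · refine ⟨b 0, b 1, ?_⟩
    rw [Fin.sum_univ_two, show (0 : Fin 3).succAbove (0 : Fin 2) = 0 + 1 by decide,
      show (0 : Fin 3).succAbove (1 : Fin 2) = 0 + 2 by decide]
    ring
  · refine ⟨b 1, b 0, ?_⟩
    rw [Fin.sum_univ_two, show (1 : Fin 3).succAbove (0 : Fin 2) = 1 + 2 by decide,
      show (1 : Fin 3).succAbove (1 : Fin 2) = 1 + 1 by decide]
    ring
  · refine ⟨b 0, b 1, ?_⟩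
    rw [Fin.sum_univ_two, show (2 : Fin 3).succAbove (0 : Fin 2) = 2 + 1 by decide,
      show (2 : Fin 3).succAbove (1 : Fin 2) = 2 + 2 by decide]
    ring

private theorem idx_succ (j₀ : Fin 3) (l : Fin 2) :
    j₀.succAbove l = j₀ + 1 ∨ j₀.succAbove l = j₀ + 2 := by
  revert j₀ l; decide

private theorem idx_cases (j₀ i : Fin 3) : i = j₀ ∨ i = j₀ + 1 ∨ i = j₀ + 2 := by
  revert j₀ i; decide

private theorem idx_eqs (j₀ : Fin 3) : j₀ + 1 + 1 = j₀ + 2 ∧ j₀ + 1 + 2 = j₀ ∧ j₀ + 2 + 1 = j₀ ∧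
    j₀ + 2 + 2 = j₀ + 1 ∧ j₀ + 1 ≠ j₀ ∧ j₀ + 2 ≠ j₀ ∧ j₀ + 2 ≠ j₀ + 1 := by
  revert j₀; decide

private theorem idx_sum3 {R : Type} [CommRing R] (P : Fin 3 → R) (j₀ : Fin 3) :
    ∑ i, P i = P j₀ + P (j₀ + 1) + P (j₀ + 2) := by
  rcases (show j₀ = 0 ∨ j₀ = 1 ∨ j₀ = 2 by revert j₀; decide) with rfl | rfl | rfl
  · rw [Fin.sum_univ_three]; rfl
  · rw [Fin.sum_univ_three, show (1 : Fin 3) + 1 = 2 by decide, show (1 : Fin 3) + 2 = 0 by decide]
    ring
  · rw [Fin.sum_univ_three, show (2 : Fin 3) + 1 = 0 by decide, show (2 : Fin 3) + 2 = 1 by decide]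
    ring

/-- If `v_{j₀}` belongs to the ideal of the other two partial derivatives `F_a`, `F_b` near `q`,
then `v` is Koszul near `q`. By `exists_local`, `s gch(v_{j₀}) = ∑ b_l ∂_l gch(F)`; homogenize:
`S v_{j₀} = C_a F_a + C_b F_b`, `S(q) ≠ 0`; subtract a Koszul relation from `S v`, so that
`v_{j₀} = 0`, `v_a F_a + v_b F_b = 0`; with `F_a = D F_a'`, `F_b = D F_b'`, `F_a'`, `F_b'` without
common factor, `D(q) ≠ 0` by `hN`, `D v` is Koszul. -/
theorem local_kos {F : MvPolynomial (Fin 3) ℂ} {d : ℕ} (hd : 2 ≤ d) (hF : F.IsHomogeneous d)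
    {δ : ℕ} {v : Fin 3 → MvPolynomial (Fin 3) ℂ} (hv : ∀ i, (v i).IsHomogeneous δ)
    (hvF : ∑ i, v i * pderiv i F = 0) {q : Fin 3 → ℂ} {j₀ : Fin 3} (hq : q j₀ = 1)
    (hN : ∃ N : ℕ, ∀ i : Fin 2, (MvPowerSeries.X i : P2) ^ N ∈
      Ideal.span (Set.range fun j : Fin 2 => MvPowerSeries.pderiv ℂ j (gch F q j₀ : P2)))
    {c : Fin 2 → P2}
    (hc : (gch (v j₀) q j₀ : P2) = ∑ i, c i * MvPowerSeries.pderiv ℂ i (gch F q j₀ : P2)) :
    ∃ (S : MvPolynomial (Fin 3) ℂ) (l : ℕ), S.IsHomogeneous l ∧ eval q S ≠ 0 ∧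
      IsKos F fun i => S * v i := by
  obtain ⟨s, b, hs, hsb⟩ := exists_local (fun i => pderiv i (gch F q j₀)) (gch (v j₀) q j₀) c
    (by
      rw [hc]
      exact Finset.sum_congr rfl fun i _ => by rw [PC.pderiv_coe_P2])
  -- homogenize
  obtain ⟨n, n', hn, hn0, hn1, hnn⟩ : ∃ n n' : ℕ, s.totalDegree ≤ n ∧ (b 0).totalDegree ≤ n' ∧
      (b 1).totalDegree ≤ n' ∧ n + δ = n' + (d - 1) :=
    ⟨s.totalDegree + (b 0).totalDegree + (b 1).totalDegree + (d - 1),
      s.totalDegree + (b 0).totalDegree + (b 1).totalDegree + δ, by omega, by omega, by omega,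
      by omega⟩
  have hS0 : (hmg q j₀ n s).IsHomogeneous n := hmg_hom q j₀ hn
  have hS0q : eval q (hmg q j₀ n s) ≠ 0 := by
    rw [← constantCoeff_gc hq, gc_hmg]
    exact hs
  have hP : ∀ i, (pderiv i F).IsHomogeneous (d - 1) := fun i => hF.pderiv
  have hrel : hmg q j₀ n s * v j₀ =
      ∑ l : Fin 2, hmg q j₀ n' (b l) * pderiv (j₀.succAbove l) F := by
    refine sub_eq_zero.1 (eq_zero_of_gc (q := q) (j₀ := j₀) (e := n + δ) ?_ ?_)
    · refine (hS0.mul (hv j₀)).sub (IsHomogeneous.sum _ _ _ fun l _ => ?_)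
      rw [hnn]
      refine IsHomogeneous.mul ?_ (hP _)
      rcases (show l = 0 ∨ l = 1 by omega) with rfl | rfl
      · exact hmg_hom q j₀ hn0
      · exact hmg_hom q j₀ hn1
    · rw [map_sub, map_mul, gc_hmg, map_sum, sub_eq_zero, ← gch_gc, hsb]
      refine Finset.sum_congr rfl fun l _ => ?_
      rw [map_mul, gc_hmg, bpderiv_gch, gch_gc]
  obtain ⟨B₁, B₂, hB⟩ := idx_sum (fun i => pderiv i F) j₀ (fun l => hmg q j₀ n' (b l))
  rw [hB] at hrel
  obtain ⟨e1, e2, e3, e4, e5, e6, e7⟩ := idx_eqs j₀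
  have hvF' : v j₀ * pderiv j₀ F + v (j₀ + 1) * pderiv (j₀ + 1) F +
      v (j₀ + 2) * pderiv (j₀ + 2) F = 0 := by
    rw [← hvF, idx_sum3 (fun i => v i * pderiv i F) j₀]
  -- the partial derivatives in the chart
  have hne : pderiv (j₀ + 1) F ≠ 0 ∨ pderiv (j₀ + 2) F ≠ 0 := by
    by_contra hcon
    push Not at hcon
    obtain ⟨N, hN⟩ := hN
    have h1 : Ideal.span (Set.range fun j : Fin 2 =>
        MvPowerSeries.pderiv ℂ j (gch F q j₀ : P2)) = ⊥ := by
      rw [Ideal.span_eq_bot]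
      rintro _ ⟨l, rfl⟩
      show MvPowerSeries.pderiv ℂ l (gch F q j₀ : P2) = 0
      rw [← PC.pderiv_coe_P2, bpderiv_gch, gch_gc]
      rcases idx_succ j₀ l with h | h
      · rw [h, hcon.1, map_zero, MvPolynomial.coe_zero]
      · rw [h, hcon.2, map_zero, MvPolynomial.coe_zero]
    have h2 := hN 0
    rw [h1, Ideal.mem_bot] at h2
    have h3 := congrArg (MvPowerSeries.coeff (Finsupp.single 0 N)) h2
    rw [MvPowerSeries.X_pow_eq, MvPowerSeries.coeff_monomial_same, map_zero] at h3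
    exact one_ne_zero h3
  obtain ⟨D, E, hDA, hDB, hD1, hD2⟩ := split_rel' (A := pderiv (j₀ + 1) F)
    (B := pderiv (j₀ + 2) F)
    (w₁ := hmg q j₀ n s * v (j₀ + 1) - (- (pderiv j₀ F * B₁)))
    (w₂ := hmg q j₀ n s * v (j₀ + 2) - (- (pderiv j₀ F * B₂)))
    (by linear_combination hmg q j₀ n s * hvF' - pderiv j₀ F * hrel) hne
  obtain ⟨e, hDe⟩ : ∃ e, D.IsHomogeneous e := by
    rcases hne with h | h
    · exact isHomogeneous_of_dvd (hP _) h hDA
    · exact isHomogeneous_of_dvd (hP _) h hDB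
  have hDq : eval q D ≠ 0 := by
    obtain ⟨N, hN⟩ := hN
    rw [← constantCoeff_gc hq]
    have h1 : Ideal.span (Set.range fun j : Fin 2 =>
        MvPowerSeries.pderiv ℂ j (gch F q j₀ : P2)) ≤ Ideal.span {((gc q j₀ D :
          MvPolynomial (Fin 2) ℂ) : P2)} := by
      rw [Ideal.span_le]
      rintro _ ⟨l, rfl⟩
      show MvPowerSeries.pderiv ℂ l (gch F q j₀ : P2) ∈ _
      rw [← PC.pderiv_coe_P2, bpderiv_gch, gch_gc, SetLike.mem_coe, Ideal.mem_span_singleton]
      have h2 : D ∣ pderiv (j₀.succAbove l) F := by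
        rcases idx_succ j₀ l with h | h
        · rw [h]; exact hDA
        · rw [h]; exact hDB
      obtain ⟨r, hr⟩ := h2
      rw [hr, map_mul, MvPolynomial.coe_mul]
      exact dvd_mul_right _ _
    have h3 := fun i => Ideal.mem_span_singleton.1 (h1 (hN i))
    have h4 := const_ne_zero_of_dvd (h3 0) (h3 1)
    intro h5
    apply h4
    rw [← MvPowerSeries.coeff_zero_eq_constantCoeff_apply, MvPolynomial.coeff_coe]
    exact h5
  refine ⟨D * hmg q j₀ n s, e + n, hDe.mul hS0, ?_, ?_⟩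
  · rw [map_mul]
    exact mul_ne_zero hDq hS0q
  · refine ⟨fun i => if i = j₀ then -E else if i = j₀ + 1 then -(D * B₂) else D * B₁, fun i => ?_⟩
    rcases idx_cases j₀ i with rfl | rfl | rfl
    · simp only [if_neg e5, if_neg e6, if_neg e7, if_true]
      linear_combination D * hrel
    · simp only [e1, e2, if_neg e6, if_neg e7, if_true]
      linear_combination hD1
    · simp only [e3, e4, if_neg e5, if_true]
      linear_combination hD2

end YN

end MPb07157
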