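import Pool.Agent.Lib.MP_b07157_agYL.Hess
import Pool.Agent.Lib.MP_b07157_agI.Geo
import Pool.Agent.Lib.MP_b07157_agM.CDefs

/-!
# The power `F^(-3/d)` for plane curves with double points: definitions
-/

noncomputable section

namespace MPb07157

open MvPolynomial

namespace YN

/-- The vector field `v` is a combination of the Koszul relations between the partial derivatives:
`v = grad F × b`. -/
def IsKos (F : MvPolynomial (Fin 3) ℂ) (v : Fin 3 → MvPolynomial (Fin 3) ℂ) : Prop :=
  ∃ b : Fin 3 → MvPolynomial (Fin 3) ℂ, ∀ i,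
    v i = pderiv (i + 1) F * b (i + 2) - pderiv (i + 2) F * b (i + 1)

/-- All singular points of the curve `F = 0` are double points. -/
def DoubleCurve (F : MvPolynomial (Fin 3) ℂ) : Prop :=
  ∀ q : Fin 3 → ℂ, q ≠ 0 → (∀ j, eval q (pderiv j F) = 0) →
    ∃ i j, eval q (pderiv i (pderiv j F)) ≠ 0

end YN

end MPb07157
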