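import Pool.Agent.Lib.MP_b07157_agYN.Defs

/-!
# The Koszul relations: depth
-/

noncomputable section

namespace MPb07157

open MvPolynomial

namespace YN

private theorem depthB_par {g w : Fin 3 → MvPolynomial (Fin 3) ℂ}
    (hF : ∀ D, (∀ i, D ∣ g i) → IsUnit D)
    (h : ∀ i : Fin 3, g (i + 1) * w (i + 2) - g (i + 2) * w (i + 1) = 0) :
    ∃ c, ∀ i, w i = c * g i := by
  classical
  have hne : ∃ i, g i ≠ 0 := by
    by_contra hcon
    push Not at hcon
    exact not_isUnit_zero (hF 0 fun i => by rw [hcon i])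
  obtain ⟨i₀, hi⟩ := hne
  have h0 : g 1 * w 2 - g 2 * w 1 = 0 := h 0
  have h1 : g 2 * w 0 - g 0 * w 2 = 0 := h 1
  have h2 : g 0 * w 1 - g 1 * w 0 = 0 := h 2
  have hsym : ∀ i j : Fin 3, g i * w j = g j * w i := by
    intro i j
    fin_cases i <;> fin_cases j
    · rfl
    · exact sub_eq_zero.1 h2
    · exact (sub_eq_zero.1 h1).symm
    · exact (sub_eq_zero.1 h2).symm
    · rfl
    · exact sub_eq_zero.1 h0
    · exact sub_eq_zero.1 h1
    · exact (sub_eq_zero.1 h0).symm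
    · rfl
  let _ : GCDMonoid (MvPolynomial (Fin 3) ℂ) := UniqueFactorizationMonoid.toGCDMonoid _
  have hu : IsUnit (gcd (g 0) (gcd (g 1) (g 2))) := by
    refine hF _ fun i => ?_
    fin_cases i
    · exact gcd_dvd_left _ _
    · exact (gcd_dvd_right _ _).trans (gcd_dvd_left _ _)
    · exact (gcd_dvd_right _ _).trans (gcd_dvd_right _ _)
  have hdvd : ∀ j, g i₀ ∣ g j * w i₀ := fun j => ⟨w j, (hsym j i₀).trans rfl⟩
  have e1 : g i₀ ∣ gcd (g 1) (g 2) * w i₀ :=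
    (dvd_gcd (hdvd 1) (hdvd 2)).trans (gcd_mul_right' (w i₀) (g 1) (g 2)).dvd
  have e2 : g i₀ ∣ gcd (g 0) (gcd (g 1) (g 2)) * w i₀ :=
    (dvd_gcd (hdvd 0) e1).trans (gcd_mul_right' (w i₀) (g 0) (gcd (g 1) (g 2))).dvd
  obtain ⟨c, hc⟩ := (hu.dvd_mul_left).1 e2
  refine ⟨c, fun j => mul_left_cancel₀ hi ?_⟩
  rw [hsym i₀ j, hc]
  ring

private theorem depthB_mem {a b c : MvPolynomial (Fin 3) ℂ}
    (h : X 2 * a + X 0 * b + X 1 * c = 0) :
    ∃ e₀ e₁ e₂ : MvPolynomial (Fin 3) ℂ, a = X 1 * e₀ - X 0 * e₁ ∧ b = X 2 * e₁ - X 1 * e₂ ∧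
      c = X 0 * e₂ - X 2 * e₀ := by
  classical
  have hm : X 2 * a ∈ Ideal.span ((fun i => (X i : MvPolynomial (Fin 3) ℂ)) '' {0, 1}) := by
    have h1 : X 2 * a = (-b) * X 0 + (-c) * X 1 := by linear_combination h
    rw [h1]
    refine Ideal.add_mem _ (Ideal.mul_mem_left _ _ (Ideal.subset_span ⟨0, by simp, rfl⟩))
      (Ideal.mul_mem_left _ _ (Ideal.subset_span ⟨1, by simp, rfl⟩))
  have ha : a ∈ Ideal.span ((fun i => (X i : MvPolynomial (Fin 3) ℂ)) '' {0, 1}) := by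
    rw [MvPolynomial.mem_ideal_span_X_image] at hm ⊢
    intro m hmm
    have h1 : Finsupp.single 2 1 + m ∈ (X 2 * a).support := by
      rw [MvPolynomial.mem_support_iff, MvPolynomial.coeff_X_mul]
      exact MvPolynomial.mem_support_iff.1 hmm
    obtain ⟨i, hi, hi2⟩ := hm _ h1
    refine ⟨i, hi, ?_⟩
    have h2 : i ≠ 2 := by
      rcases hi with rfl | hi
      · decide
      · rw [Set.mem_singleton_iff] at hi
        rw [hi]
        decide
    rwa [Finsupp.add_apply, Finsupp.single_apply, if_neg (Ne.symm h2), zero_add] at hi2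
  rw [Set.image_pair, Ideal.mem_span_pair] at ha
  obtain ⟨p, q, hpq⟩ := ha
  -- a = p X 0 + q X 1
  have hX0 : (X 0 : MvPolynomial (Fin 3) ℂ) ≠ 0 := X_ne_zero _
  have hX1 : (X 1 : MvPolynomial (Fin 3) ℂ) ≠ 0 := X_ne_zero _
  have h3 : X 0 * (b + X 2 * p) + X 1 * (c + X 2 * q) = 0 := by
    rw [← hpq] at h
    linear_combination h
  have h4 : (X 1 : MvPolynomial (Fin 3) ℂ) ∣ X 0 * (b + X 2 * p) :=
    ⟨-(c + X 2 * q), by linear_combination h3⟩
  have h5 : ¬ (X 1 : MvPolynomial (Fin 3) ℂ) ∣ X 0 := by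
    rw [MvPolynomial.X_dvd_X]
    simp
  obtain ⟨r, hr⟩ := (MvPolynomial.X_prime.dvd_or_dvd h4).resolve_left h5
  refine ⟨q, -p, -r, ?_, ?_, ?_⟩
  · linear_combination -hpq
  · linear_combination hr
  · apply mul_left_cancel₀ hX1
    linear_combination h3 - X 0 * hr

/-- If `X_j v = grad F × b_j` for all `j`, then `grad F × (X_j b_i - X_i b_j) = 0`,
`X_j b_i - X_i b_j = c_ij grad F`, `X_k c_ij + X_i c_jk + X_j c_ki = 0`, so that
`c_ij = X_j e_i - X_i e_j` (`c_01 ∈ (X_0, X_1)`), and `b_i - e_i grad F = X_i b`. -/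
theorem isKos_of_X_mul {F : MvPolynomial (Fin 3) ℂ}
    (hF : ∀ D, (∀ i, D ∣ pderiv i F) → IsUnit D) {v : Fin 3 → MvPolynomial (Fin 3) ℂ}
    (h : ∀ j : Fin 3, IsKos F fun i => X j * v i) : IsKos F v := by
  classical
  choose b hb using h
  have hg0 : ∃ i, pderiv i F ≠ 0 := by
    by_contra hcon
    push Not at hcon
    exact not_isUnit_zero (hF 0 fun i => by rw [hcon i])
  obtain ⟨i₀, hi₀⟩ := hg0
  have hpar : ∀ j k : Fin 3, ∃ c, ∀ i, X k * b j i - X j * b k i = c * pderiv i F := by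
    intro j k
    refine depthB_par (g := fun i => pderiv i F) (w := fun i => X k * b j i - X j * b k i) hF
      fun i => ?_
    have h1 := hb j i
    have h2 := hb k i
    simp only at h1 h2 ⊢
    linear_combination X j * h2 - X k * h1
  obtain ⟨c₀, hc₀⟩ := hpar 0 1
  obtain ⟨c₁, hc₁⟩ := hpar 1 2
  obtain ⟨c₂, hc₂⟩ := hpar 2 0
  have hrel : X 2 * c₀ + X 0 * c₁ + X 1 * c₂ = 0 := by
    apply mul_right_cancel₀ hi₀
    rw [zero_mul]
    linear_combination (-X 2) * hc₀ i₀ - X 0 * hc₁ i₀ - X 1 * hc₂ i₀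
  obtain ⟨e₀, e₁, e₂, he₀, -, -⟩ := depthB_mem hrel
  have hX0 : (X 0 : MvPolynomial (Fin 3) ℂ) ≠ 0 := X_ne_zero _
  have h5 : ¬ (X 0 : MvPolynomial (Fin 3) ℂ) ∣ X 1 := by
    rw [MvPolynomial.X_dvd_X]
    simp
  have hdiv : ∀ i, ∃ r, b 0 i - e₀ * pderiv i F = X 0 * r := by
    intro i
    have h6 : (X 0 : MvPolynomial (Fin 3) ℂ) ∣ X 1 * (b 0 i - e₀ * pderiv i F) := by
      refine ⟨b 1 i - e₁ * pderiv i F, ?_⟩
      have h7 := hc₀ i
      rw [he₀] at h7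
      linear_combination h7
    exact (MvPolynomial.X_prime.dvd_or_dvd h6).resolve_left h5
  choose r hr using hdiv
  refine ⟨r, fun i => ?_⟩
  apply mul_left_cancel₀ hX0
  have h7 := hb 0 i
  simp only at h7
  linear_combination h7 + pderiv (i + 1) F * hr (i + 2) - pderiv (i + 2) F * hr (i + 1)

end YN

end MPb07157
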