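import Pool.Agent.Lib.MP_b07157_agYN.DepthA
import Pool.Agent.Lib.MP_b07157_agYN.DepthB

/-!
# The Koszul relations: from local to global
-/

noncomputable section

namespace MPb07157

open MvPolynomial

namespace YN

/-- The ideal of the `s` such that `s v` is Koszul. -/
def kosIdeal (F : MvPolynomial (Fin 3) ℂ) (v : Fin 3 → MvPolynomial (Fin 3) ℂ) :
    Ideal (MvPolynomial (Fin 3) ℂ) where
  carrier := {s | IsKos F fun i => s * v i}
  zero_mem' := ⟨fun _ => 0, fun i => by ring⟩
  add_mem' := by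
    rintro s t ⟨b, hb⟩ ⟨c, hc⟩
    refine ⟨fun i => b i + c i, fun i => ?_⟩
    have h1 := hb i
    have h2 := hc i
    simp only at h1 h2 ⊢
    linear_combination h1 + h2
  smul_mem' := by
    rintro t s ⟨b, hb⟩
    refine ⟨fun i => t * b i, fun i => ?_⟩
    have h1 := hb i
    simp only [smul_eq_mul] at h1 ⊢
    linear_combination t * h1

theorem mem_kosIdeal {F : MvPolynomial (Fin 3) ℂ} {v : Fin 3 → MvPolynomial (Fin 3) ℂ}
    {s : MvPolynomial (Fin 3) ℂ} : s ∈ kosIdeal F v ↔ IsKos F fun i => s * v i := Iff.rfl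

theorem pderiv_mem_kosIdeal {F : MvPolynomial (Fin 3) ℂ} {v : Fin 3 → MvPolynomial (Fin 3) ℂ}
    (hv : ∑ i, v i * pderiv i F = 0) (j : Fin 3) : pderiv j F ∈ kosIdeal F v := by
  rw [mem_kosIdeal]
  rw [Fin.sum_univ_three] at hv
  fin_cases j
  · refine ⟨![0, v 2, -v 1], fun i => ?_⟩
    fin_cases i
    · show pderiv 0 F * v 0 = pderiv 1 F * (-v 1) - pderiv 2 F * v 2
      linear_combination hv
    · show pderiv 0 F * v 1 = pderiv 2 F * 0 - pderiv 0 F * (-v 1)
      ring
    · show pderiv 0 F * v 2 = pderiv 0 F * v 2 - pderiv 1 F * 0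
      ring
  · refine ⟨![-v 2, 0, v 0], fun i => ?_⟩
    fin_cases i
    · show pderiv 1 F * v 0 = pderiv 1 F * v 0 - pderiv 2 F * 0
      ring
    · show pderiv 1 F * v 1 = pderiv 2 F * (-v 2) - pderiv 0 F * v 0
      linear_combination hv
    · show pderiv 1 F * v 2 = pderiv 0 F * 0 - pderiv 1 F * (-v 2)
      ring
  · refine ⟨![v 1, -v 0, 0], fun i => ?_⟩
    fin_cases i
    · show pderiv 2 F * v 0 = pderiv 1 F * 0 - pderiv 2 F * (-v 0)
      ring
    · show pderiv 2 F * v 1 = pderiv 2 F * v 1 - pderiv 0 F * 0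
      ring
    · show pderiv 2 F * v 2 = pderiv 0 F * (-v 0) - pderiv 1 F * v 1
      linear_combination hv

/-- **From local to global.** The ideal of the `s` such that `s v` is Koszul has no zeros `p ≠ 0`
(at the `p` with `∂_j F(p) ≠ 0`: `s = ∂_j F`), so contains `X_j^N` (Nullstellensatz); all monomials
of high degree, and descending induction with `isKos_of_X_mul`. -/
theorem isKos_of_local {F : MvPolynomial (Fin 3) ℂ} {d : ℕ} (hd : 0 < d) (hF : F.IsHomogeneous d)
    (hsq : Squarefree F) {v : Fin 3 → MvPolynomial (Fin 3) ℂ}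
    (hv : ∑ i, v i * pderiv i F = 0)
    (h : ∀ p : Fin 3 → ℂ, p ≠ 0 → (∀ j, eval p (pderiv j F) = 0) →
      ∃ s, eval p s ≠ 0 ∧ IsKos F fun i => s * v i) : IsKos F v := by
  have hrad : Ideal.span (Set.range (X : Fin 3 → MvPolynomial (Fin 3) ℂ)) ≤
      (kosIdeal F v).radical := by
    refine Ideal.span_le.2 ?_
    rintro _ ⟨j, rfl⟩
    show X j ∈ (kosIdeal F v).radical
    rw [← vanishingIdeal_zeroLocus_eq_radical (K := ℂ), mem_vanishingIdeal_iff]
    intro p hp
    by_cases hp0 : p = 0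
    · subst hp0
      simp
    · exfalso
      rw [mem_zeroLocus_iff] at hp
      by_cases hj : ∀ j, eval p (pderiv j F) = 0
      · obtain ⟨s, hs, hk⟩ := h p hp0 hj
        exact hs (hp s (mem_kosIdeal.2 hk))
      · push Not at hj
        obtain ⟨i, hi⟩ := hj
        exact hi (hp _ (pderiv_mem_kosIdeal hv i))
  have hfg : (Ideal.span (Set.range (X : Fin 3 → MvPolynomial (Fin 3) ℂ))).FG :=
    IsNoetherian.noetherian _
  obtain ⟨M, hM⟩ := Ideal.exists_pow_le_of_le_radical_of_fg hrad hfg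
  have key : ∀ M : ℕ, Ideal.span (Set.range (X : Fin 3 → MvPolynomial (Fin 3) ℂ)) ^ M ≤
      kosIdeal F v → IsKos F v := by
    intro M
    induction M with
    | zero =>
      intro h0
      have h1 : (1 : MvPolynomial (Fin 3) ℂ) ∈ kosIdeal F v := h0 (by simp)
      obtain ⟨b, hb⟩ := mem_kosIdeal.1 h1
      refine ⟨b, fun i => ?_⟩
      have h2 := hb i
      simp only [one_mul] at h2
      exact h2
    | succ M ih =>
      intro h0
      apply ih
      intro s hs
      rw [mem_kosIdeal]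
      refine isKos_of_X_mul (fun D hD => isUnit_of_dvd_pderiv hd hF hsq hD) fun j => ?_
      have h1 : s * X j ∈ kosIdeal F v := by
        apply h0
        rw [pow_succ]
        exact Ideal.mul_mem_mul hs (Ideal.subset_span ⟨j, rfl⟩)
      obtain ⟨b, hb⟩ := mem_kosIdeal.1 h1
      refine ⟨b, fun i => ?_⟩
      have h2 := hb i
      simp only at h2 ⊢
      rw [← h2]
      ring
  exact key M hM

end YN

end MPb07157
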