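import Pool.Agent.Lib.MP_b07157_agYN.Defs

/-!
# The partial derivatives of a squarefree form
-/

noncomputable section

namespace MPb07157

open MvPolynomial

namespace YN

namespace DepthAaux

/-- The degree of a partial derivative is smaller. -/
theorem totalDegree_pderiv_lt {i : Fin 3} {p : MvPolynomial (Fin 3) ℂ} (h : pderiv i p ≠ 0) :
    (pderiv i p).totalDegree < p.totalDegree := by
  obtain ⟨m, hm, hd⟩ := Finset.exists_mem_eq_sup (pderiv i p).support
    (support_nonempty.2 h) (fun s : Fin 3 →₀ ℕ => s.sum fun _ e => e)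
  have h1 : (pderiv i p).totalDegree = m.sum fun _ e => e := hd
  have h2 : coeff (m + Finsupp.single i 1) p ≠ 0 := by
    intro h3
    apply mem_support_iff.1 hm
    rw [coeff_pderiv, h3, zero_mul]
  have h4 := le_totalDegree (mem_support_iff.2 h2)
  have h5 : ((m + Finsupp.single i 1).sum fun _ e => e) = (m.sum fun _ e => e) + 1 := by
    rw [Finsupp.sum_add_index' (fun _ => rfl) (fun _ _ _ => rfl), Finsupp.sum_single_index rfl]
  omega

theorem pderiv_eq_zero_of_dvd {i : Fin 3} {p : MvPolynomial (Fin 3) ℂ} (h : p ∣ pderiv i p) :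
    pderiv i p = 0 := by
  by_contra h0
  have h1 := totalDegree_pderiv_lt h0
  obtain ⟨c, hc⟩ := h
  have hp : p ≠ 0 := by
    rintro rfl
    exact h0 (by simp)
  have hc0 : c ≠ 0 := by
    rintro rfl
    exact h0 (by rw [hc, mul_zero])
  have h2 : (pderiv i p).totalDegree = p.totalDegree + c.totalDegree := by
    conv_lhs => rw [hc]
    exact totalDegree_mul_of_isDomain hp hc0
  omega

/-- A polynomial without derivatives is a constant. -/
theorem eq_C {p : MvPolynomial (Fin 3) ℂ} (h : ∀ i, pderiv i p = 0) : p = C (coeff 0 p) := by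
  ext m
  rw [coeff_C]
  split_ifs with hm
  · rw [hm]
  · obtain ⟨i, hi⟩ : ∃ i, m i ≠ 0 := by
      by_contra hcon
      push Not at hcon
      exact hm (Finsupp.ext fun i => (hcon i).symm)
    have h3 := congrArg (coeff (m - Finsupp.single i 1)) (h i)
    rw [coeff_pderiv, coeff_zero, tsub_add_cancel_of_le
      (Finsupp.single_le_iff.2 (Nat.one_le_iff_ne_zero.2 hi)), mul_eq_zero] at h3
    rcases h3 with h3 | h3
    · exact h3
    · exact absurd h3 (Nat.cast_add_one_ne_zero ((m - Finsupp.single i 1 : Fin 3 →₀ ℕ) i))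

end DepthAaux

open DepthAaux

/-- The partial derivatives of a squarefree form have no common factor: if `D` is an irreducible
common factor, then `D ∣ d F = ∑ x_i F_i`, `F = D G`, `D ∣ G ∂_i D` for all `i`, so `D ∣ G`. -/
theorem isUnit_of_dvd_pderiv {F : MvPolynomial (Fin 3) ℂ} {d : ℕ} (hd : 0 < d)
    (hF : F.IsHomogeneous d) (hsq : Squarefree F) {D : MvPolynomial (Fin 3) ℂ}
    (hD : ∀ i, D ∣ pderiv i F) : IsUnit D := by
  by_contra hu
  have hFdvd : ∀ P : MvPolynomial (Fin 3) ℂ, (∀ i, P ∣ pderiv i F) → P ∣ F := by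
    intro P hP
    have h1 : P ∣ d • F := by
      rw [← hF.sum_X_mul_pderiv]
      exact Finset.dvd_sum fun i _ => (hP i).mul_left _
    have h2 : F = C ((d : ℂ)⁻¹) * d • F := by
      rw [nsmul_eq_mul, ← mul_assoc]
      have h3 : ((d : ℕ) : MvPolynomial (Fin 3) ℂ) = C (d : ℂ) := by simp
      rw [h3, ← C_mul, inv_mul_cancel₀ (by exact_mod_cast hd.ne'), C_1, one_mul]
    rw [h2]
    exact h1.mul_left _
  have hF0 : F ≠ 0 := hsq.ne_zero
  have hD0 : D ≠ 0 := by
    rintro rfl
    exact hF0 (zero_dvd_iff.1 (hFdvd 0 hD))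
  obtain ⟨P, hP, hPD⟩ := WfDvdMonoid.exists_irreducible_factor hu hD0
  have hPi : ∀ i, P ∣ pderiv i F := fun i => hPD.trans (hD i)
  obtain ⟨G, hG⟩ := hFdvd P hPi
  have hPp : Prime P := hP.prime
  have hPG : ¬ P ∣ G := by
    rintro ⟨H, rfl⟩
    exact hP.not_isUnit (hsq P ⟨H, by rw [hG, mul_assoc]⟩)
  have h0 : ∀ i, pderiv i P = 0 := by
    intro i
    apply pderiv_eq_zero_of_dvd
    have h1 := hPi i
    rw [hG, pderiv_mul] at h1
    have h2 : P ∣ pderiv i P * G := (dvd_add_left (dvd_mul_right P (pderiv i G))).1 h1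
    exact (hPp.dvd_or_dvd h2).resolve_right hPG
  have h1 := eq_C h0
  have hc : coeff 0 P ≠ 0 := by
    intro hc
    rw [hc, C_0] at h1
    exact hP.ne_zero h1
  apply hP.not_isUnit
  rw [h1]
  exact (isUnit_iff_ne_zero.2 hc).map C

end YN

end MPb07157
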