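import Pool.Agent.Lib.MP_b07157_agYN.Defs
import Pool.Agent.Lib.MP_b07157_agYL.Morse
import Pool.Agent.Lib.MP_b07157_agV.H1

/-!
# The normal form of a double point of a plane curve
-/

noncomputable section

namespace MPb07157

open MvPolynomial

namespace YN

open PC

namespace LocB

open YL

/-- The second derivatives after an automorphism. -/
theorem cc_pd2 {e : P2 ≃ₐ[ℂ] P2} {h : P2}
    (h1 : ∀ i, MvPowerSeries.constantCoeff (MvPowerSeries.pderiv ℂ i h) = 0) (i j : Fin 2) :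
    MvPowerSeries.constantCoeff (MvPowerSeries.pderiv ℂ i (MvPowerSeries.pderiv ℂ j (e h))) =
      MvPowerSeries.constantCoeff (MvPowerSeries.pderiv ℂ j (e (MvPowerSeries.X 0))) *
        (MvPowerSeries.constantCoeff (MvPowerSeries.pderiv ℂ i (e (MvPowerSeries.X 0))) *
          MvPowerSeries.constantCoeff (MvPowerSeries.pderiv ℂ 0 (MvPowerSeries.pderiv ℂ 0 h)) +
        MvPowerSeries.constantCoeff (MvPowerSeries.pderiv ℂ i (e (MvPowerSeries.X 1))) *
          MvPowerSeries.constantCoeff (MvPowerSeries.pderiv ℂ 0 (MvPowerSeries.pderiv ℂ 1 h))) +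
      MvPowerSeries.constantCoeff (MvPowerSeries.pderiv ℂ j (e (MvPowerSeries.X 1))) *
        (MvPowerSeries.constantCoeff (MvPowerSeries.pderiv ℂ i (e (MvPowerSeries.X 0))) *
          MvPowerSeries.constantCoeff (MvPowerSeries.pderiv ℂ 0 (MvPowerSeries.pderiv ℂ 1 h)) +
        MvPowerSeries.constantCoeff (MvPowerSeries.pderiv ℂ i (e (MvPowerSeries.X 1))) *
          MvPowerSeries.constantCoeff (MvPowerSeries.pderiv ℂ 1 (MvPowerSeries.pderiv ℂ 1 h))) := by
  have e1 : MvPowerSeries.pderiv ℂ j (e h) =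
      MvPowerSeries.pderiv ℂ j (e (MvPowerSeries.X 0)) * e (MvPowerSeries.pderiv ℂ 0 h) +
      MvPowerSeries.pderiv ℂ j (e (MvPowerSeries.X 1)) * e (MvPowerSeries.pderiv ℂ 1 h) := by
    rw [pderiv_equiv, Fin.sum_univ_two]
  have e2 : ∀ l, MvPowerSeries.pderiv ℂ i (e (MvPowerSeries.pderiv ℂ l h)) =
      MvPowerSeries.pderiv ℂ i (e (MvPowerSeries.X 0)) *
        e (MvPowerSeries.pderiv ℂ 0 (MvPowerSeries.pderiv ℂ l h)) +
      MvPowerSeries.pderiv ℂ i (e (MvPowerSeries.X 1)) *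
        e (MvPowerSeries.pderiv ℂ 1 (MvPowerSeries.pderiv ℂ l h)) := by
    intro l
    rw [pderiv_equiv, Fin.sum_univ_two]
  rw [e1, map_add, Derivation.leibniz, Derivation.leibniz, e2, e2]
  simp only [smul_eq_mul, map_add, map_mul, constantCoeff_equiv, h1, zero_mul, add_zero]
  rw [MorseAux.cc_comm h 1 0]

theorem cc_pd {e : P2 ≃ₐ[ℂ] P2} {h : P2}
    (h1 : ∀ i, MvPowerSeries.constantCoeff (MvPowerSeries.pderiv ℂ i h) = 0) (j : Fin 2) :
    MvPowerSeries.constantCoeff (MvPowerSeries.pderiv ℂ j (e h)) = 0 := by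
  rw [pderiv_equiv, Fin.sum_univ_two]
  simp only [map_add, map_mul, constantCoeff_equiv, h1, mul_zero, add_zero]

/-- The last second derivative is made nonzero. -/
theorem exists_swap {h : P2}
    (h1 : ∀ i, MvPowerSeries.constantCoeff (MvPowerSeries.pderiv ℂ i h) = 0) {i j : Fin 2}
    (hh : MvPowerSeries.constantCoeff (MvPowerSeries.pderiv ℂ i
      (MvPowerSeries.pderiv ℂ j h)) ≠ 0) :
    ∃ e : P2 ≃ₐ[ℂ] P2, MvPowerSeries.constantCoeff
        (MvPowerSeries.pderiv ℂ 1 (MvPowerSeries.pderiv ℂ 1 (e h))) ≠ 0 := by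
  have key : ∀ t : ℂ, ∃ e : P2 ≃ₐ[ℂ] P2, MvPowerSeries.constantCoeff
        (MvPowerSeries.pderiv ℂ 1 (MvPowerSeries.pderiv ℂ 1 (e h))) =
      t ^ 2 * MvPowerSeries.constantCoeff (MvPowerSeries.pderiv ℂ 0 (MvPowerSeries.pderiv ℂ 0 h)) +
      2 * t * MvPowerSeries.constantCoeff (MvPowerSeries.pderiv ℂ 0 (MvPowerSeries.pderiv ℂ 1 h)) +
      MvPowerSeries.constantCoeff (MvPowerSeries.pderiv ℂ 1 (MvPowerSeries.pderiv ℂ 1 h)) := by
    intro t
    obtain ⟨e, he⟩ := MorseAux.exists_linear (n := 2) ![![1, t], ![0, 1]] (by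
      intro v hv
      have a0 := hv 0
      have a1 := hv 1
      simp [Fin.sum_univ_two] at a0 a1
      rw [a1, mul_zero, add_zero] at a0
      funext i
      fin_cases i
      · exact a0
      · exact a1)
    have e0 : e (MvPowerSeries.X 0) = MvPowerSeries.X 0 + MvPowerSeries.C t * MvPowerSeries.X 1 := by
      rw [he, Fin.sum_univ_two]
      simp
    have e1 : e (MvPowerSeries.X 1) = MvPowerSeries.X 1 := by
      rw [he, Fin.sum_univ_two]
      simp
    have d0 : MvPowerSeries.constantCoeff (MvPowerSeries.pderiv ℂ 1 (e (MvPowerSeries.X 0))) =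
        t := by
      rw [e0, map_add, Derivation.leibniz, MvPowerSeries.pderiv_C, Spl.pderiv_X, Spl.pderiv_X,
        if_pos rfl, if_neg (by decide)]
      simp
    have d1 : MvPowerSeries.constantCoeff (MvPowerSeries.pderiv ℂ 1 (e (MvPowerSeries.X 1))) =
        1 := by
      rw [e1, Spl.pderiv_X, if_pos rfl, map_one]
    refine ⟨e, ?_⟩
    rw [cc_pd2 h1, d0, d1]
    ring
  by_contra hcon
  push Not at hcon
  have k0 : ∀ t : ℂ,
      t ^ 2 * MvPowerSeries.constantCoeff (MvPowerSeries.pderiv ℂ 0 (MvPowerSeries.pderiv ℂ 0 h)) +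
      2 * t * MvPowerSeries.constantCoeff (MvPowerSeries.pderiv ℂ 0 (MvPowerSeries.pderiv ℂ 1 h)) +
      MvPowerSeries.constantCoeff (MvPowerSeries.pderiv ℂ 1 (MvPowerSeries.pderiv ℂ 1 h)) = 0 := by
    intro t
    obtain ⟨e, e1⟩ := key t
    rw [← e1]
    exact hcon e
  have q0 := k0 0
  have q1 := k0 1
  have q2 := k0 (-1)
  have hd : MvPowerSeries.constantCoeff
      (MvPowerSeries.pderiv ℂ 1 (MvPowerSeries.pderiv ℂ 1 h)) = 0 := by linear_combination q0
  have ha : MvPowerSeries.constantCoeff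
      (MvPowerSeries.pderiv ℂ 0 (MvPowerSeries.pderiv ℂ 0 h)) = 0 := by
    linear_combination (1 / 2 : ℂ) * q1 + (1 / 2 : ℂ) * q2 - hd
  have hb : MvPowerSeries.constantCoeff
      (MvPowerSeries.pderiv ℂ 0 (MvPowerSeries.pderiv ℂ 1 h)) = 0 := by
    linear_combination (1 / 4 : ℂ) * q1 - (1 / 4 : ℂ) * q2
  apply hh
  fin_cases i <;> fin_cases j
  · exact ha
  · exact hb
  · exact (MorseAux.cc_comm h 1 0).trans hb
  · exact hd

/-- Power series in the first variable. -/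
theorem coeff_R {b : MvPowerSeries (Fin 1) ℂ} {v : Fin 2 →₀ ℕ} (hv : v 1 ≠ 0) :
    MvPowerSeries.coeff v (Spl.R 1 b) = 0 := by
  unfold Spl.R
  refine MvPowerSeries.coeff_rename_eq_zero _ _ ?_
  rintro ⟨w, rfl⟩
  apply hv
  refine Finsupp.mapDomain_of_notMem_range _ _ ?_
  rintro ⟨i, hi⟩
  exact (Fin.castSucc_lt_last i).ne hi

/-- The derivatives of `g` in terms of those of `e g`. -/
theorem pd_back (e : P2 ≃ₐ[ℂ] P2) (g : P2) (j : Fin 2) :
    e (MvPowerSeries.pderiv ℂ j g) =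
      ∑ l, e (MvPowerSeries.pderiv ℂ j (e.symm (MvPowerSeries.X l))) *
        MvPowerSeries.pderiv ℂ l (e g) := by
  have h1 := pderiv_equiv e.symm j (e g)
  rw [AlgEquiv.symm_apply_apply] at h1
  have h2 := congrArg e h1
  rw [map_sum] at h2
  rw [h2]
  refine Finset.sum_congr rfl fun l _ => ?_
  rw [map_mul, AlgEquiv.apply_symm_apply]

theorem mem_max {f : P2} (hf : MvPowerSeries.constantCoeff f = 0) :
    ∃ a b : P2, f = MvPowerSeries.X 0 * a + MvPowerSeries.X 1 * b := by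
  obtain ⟨b, hb⟩ := Spl.dvd_of_K (m := 1) (G := f - Spl.R 1 (Spl.K 1 f))
    (by rw [map_sub, Spl.K_R, sub_self])
  obtain ⟨a, ha⟩ : (MvPowerSeries.X 0 : MvPowerSeries (Fin 1) ℂ) ∣ Spl.K 1 f := by
    rw [MvPowerSeries.X_dvd_iff]
    intro v hv
    have hv0 : v = 0 := by
      refine Finsupp.ext fun i => ?_
      rw [Subsingleton.elim i 0]
      exact hv
    rw [hv0, MvPowerSeries.coeff_zero_eq_constantCoeff_apply, Spl.cc_hom, hf]
  refine ⟨Spl.R 1 a, b, ?_⟩
  have h1 : f = Spl.R 1 (Spl.K 1 f) + (f - Spl.R 1 (Spl.K 1 f)) := by ring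
  rw [h1, hb, ha, map_mul, Spl.R_X]
  rfl

theorem ne_zero_of_iso {g k : P2} (e : P2 ≃ₐ[ℂ] P2) (he : e g = k + MvPowerSeries.X 1 ^ 2)
    (hiso : IsoSing g) : k ≠ 0 := by
  rintro rfl
  rw [zero_add] at he
  obtain ⟨N, hN⟩ := hiso
  have hpr := prime_X2 1
  have h1 : ∀ l, MvPowerSeries.X 1 ∣ MvPowerSeries.pderiv ℂ l (e g) := by
    intro l
    rw [he, Derivation.leibniz_pow]
    exact ⟨2 * MvPowerSeries.pderiv ℂ l (MvPowerSeries.X 1), by
      simp only [smul_eq_mul, nsmul_eq_mul]; push_cast; ring⟩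
  have h2 : ∀ l, MvPowerSeries.X 1 ∣ e (MvPowerSeries.pderiv ℂ l g) := by
    intro l
    rw [pd_back]
    exact Finset.dvd_sum fun i _ => Dvd.dvd.mul_left (h1 i) _
  have h3 : Ideal.span {g, MvPowerSeries.pderiv ℂ 0 g, MvPowerSeries.pderiv ℂ 1 g} ≤
      (Ideal.span {(MvPowerSeries.X 1 : P2)}).comap (e : P2 →+* P2) := by
    rw [Ideal.span_le]
    intro a ha
    rw [SetLike.mem_coe, Ideal.mem_comap, Ideal.mem_span_singleton]
    rcases ha with rfl | rfl | rfl
    · show MvPowerSeries.X 1 ∣ e _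
      rw [he]
      exact dvd_pow_self _ two_ne_zero
    · exact h2 0
    · exact h2 1
  have h4 : ∀ i, MvPowerSeries.X 1 ∣ e (MvPowerSeries.X i) := by
    intro i
    have h5 := h3 (hN i)
    rw [Ideal.mem_comap, Ideal.mem_span_singleton, map_pow] at h5
    exact hpr.dvd_of_dvd_pow h5
  have h6 : (MvPowerSeries.X 1 : P2) ∣ MvPowerSeries.X 0 := by
    obtain ⟨a, b, hab⟩ := mem_max (f := e.symm (MvPowerSeries.X 0)) (by
      rw [constantCoeff_equiv, MvPowerSeries.constantCoeff_X])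
    have h7 := congrArg e hab
    rw [AlgEquiv.apply_symm_apply, map_add, map_mul, map_mul] at h7
    rw [h7]
    exact dvd_add (Dvd.dvd.mul_right (h4 0) _) (Dvd.dvd.mul_right (h4 1) _)
  rw [MvPowerSeries.X_dvd_iff] at h6
  have h8 := h6 (Finsupp.single 0 1) (by simp)
  rw [MvPowerSeries.coeff_index_single_self_X] at h8
  exact one_ne_zero h8

theorem eq_ex {v : Fin 2 →₀ ℕ} (h : v 1 = 0) : v = ex (v 0) 0 := by
  refine Finsupp.ext fun i => ?_
  fin_cases i
  · simp [ex]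
  · simp [ex, h]

/-- The order of a power series in the first variable. -/
theorem exists_ord {k : P2} (hk : k ≠ 0)
    (hk1 : ∀ v : Fin 2 →₀ ℕ, v 1 ≠ 0 → MvPowerSeries.coeff v k = 0) :
    ∃ M : ℕ, (∀ j < M, MvPowerSeries.coeff (ex j 0) k = 0) ∧
      MvPowerSeries.coeff (ex M 0) k ≠ 0 := by
  classical
  have hex : ∃ n : ℕ, MvPowerSeries.coeff (ex n 0) k ≠ 0 := by
    by_contra hcon
    push Not at hcon
    apply hk
    ext v
    rw [map_zero]
    by_cases h : v 1 = 0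
    · rw [eq_ex h]
      exact hcon _
    · exact hk1 v h
  refine ⟨Nat.find hex, fun j hj => ?_, Nat.find_spec hex⟩
  have := Nat.find_min hex hj
  push Not at this
  exact this

end LocB

/-- The normal form at a double point (`MorseAux.morse'` and a linear change of coordinates, as
`YX.exists_ueq2` in `agYX/Nf.lean`); `k ≠ 0` since `g` is an isolated singularity. -/
theorem exists_normal {g : P2} (h0 : MvPowerSeries.constantCoeff g = 0)
    (h1 : ∀ i, MvPowerSeries.constantCoeff (MvPowerSeries.pderiv ℂ i g) = 0) {i j : Fin 2}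
    (hij : MvPowerSeries.constantCoeff (MvPowerSeries.pderiv ℂ i (MvPowerSeries.pderiv ℂ j g)) ≠ 0)
    (hiso : IsoSing g) :
    ∃ (e : P2 ≃ₐ[ℂ] P2) (k : P2) (M : ℕ), e g = k + MvPowerSeries.X 1 ^ 2 ∧
      (∀ v : Fin 2 →₀ ℕ, v 1 ≠ 0 → MvPowerSeries.coeff v k = 0) ∧ 2 ≤ M ∧
      (∀ j < M, MvPowerSeries.coeff (ex j 0) k = 0) ∧ MvPowerSeries.coeff (ex M 0) k ≠ 0 := by
  obtain ⟨A, hA⟩ := LocB.exists_swap h1 hij
  obtain ⟨B, b, hB1, _⟩ := YL.MorseAux.morse' (m := 1) (G := A g) (LocB.cc_pd h1 1) hA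
  have hE : (A.trans B) g = Spl.R 1 b + MvPowerSeries.X 1 ^ 2 := hB1
  have hk1 : ∀ v : Fin 2 →₀ ℕ, v 1 ≠ 0 → MvPowerSeries.coeff v (Spl.R 1 b) = 0 :=
    fun v hv => LocB.coeff_R hv
  obtain ⟨M, hM1, hM2⟩ := LocB.exists_ord (LocB.ne_zero_of_iso _ hE hiso) hk1
  refine ⟨A.trans B, Spl.R 1 b, M, hE, hk1, ?_, hM1, hM2⟩
  by_contra hM
  have h2 : M = 0 ∨ M = 1 := by omega
  rcases h2 with rfl | rfl
  · apply hM2
    have h3 : MvPowerSeries.constantCoeff ((A.trans B) g) = 0 := by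
      rw [constantCoeff_equiv, h0]
    rw [hE, map_add, map_pow, MvPowerSeries.constantCoeff_X] at h3
    have h4 : ex 0 0 = 0 := by simp [ex]
    rw [h4, MvPowerSeries.coeff_zero_eq_constantCoeff_apply]
    simpa using h3
  · apply hM2
    have h3 : MvPowerSeries.constantCoeff (MvPowerSeries.pderiv ℂ 0 ((A.trans B) g)) = 0 :=
      LocB.cc_pd h1 0
    rw [hE, map_add, Derivation.leibniz_pow, Spl.pderiv_X, if_neg (by decide), smul_zero,
      smul_zero, add_zero, YL.MorseAux.cc_pderiv] at h3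
    have h4 : ex 1 0 = Finsupp.single 0 1 := by simp [ex]
    rw [h4]
    exact h3

/-- The Jacobian ideal of an isolated double point contains powers of the variables: it is the
ideal `(y, x^{M-1})` in the normal form. -/
theorem jac_primary {g : P2} (h0 : MvPowerSeries.constantCoeff g = 0)
    (h1 : ∀ i, MvPowerSeries.constantCoeff (MvPowerSeries.pderiv ℂ i g) = 0) {i j : Fin 2}
    (hij : MvPowerSeries.constantCoeff (MvPowerSeries.pderiv ℂ i (MvPowerSeries.pderiv ℂ j g)) ≠ 0)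
    (hiso : IsoSing g) : ∃ N : ℕ, ∀ i : Fin 2, (MvPowerSeries.X i : P2) ^ N ∈
      Ideal.span (Set.range fun j : Fin 2 => MvPowerSeries.pderiv ℂ j g) := by
  obtain ⟨e, k, M, he, hk1, hM, hk2, hk3⟩ := exists_normal h0 h1 hij hiso
  obtain ⟨w, hw⟩ : (MvPowerSeries.X 0 : P2) ^ M ∣ k := by
    rw [MvPowerSeries.X_pow_dvd_iff]
    intro v hv
    by_cases h : v 1 = 0
    · rw [LocB.eq_ex h]
      exact hk2 _ hv
    · exact hk1 v h
  have hw0 : MvPowerSeries.constantCoeff w ≠ 0 := by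
    intro h2
    apply hk3
    have h3 : ex M 0 = Finsupp.single 0 M := by simp [ex]
    rw [hw, h3]
    have h4 := MvPowerSeries.coeff_add_monomial_mul (R := ℂ) (Finsupp.single (0 : Fin 2) M) 0 w 1
    rw [MvPowerSeries.X_pow_eq]
    rw [add_zero] at h4
    rw [h4, MvPowerSeries.coeff_zero_eq_constantCoeff_apply, h2, mul_zero]
  -- the ideal of the normal form
  set J : Ideal P2 := Ideal.span (Set.range fun j : Fin 2 => MvPowerSeries.pderiv ℂ j (e g))
    with hJ
  have hJ0 : MvPowerSeries.pderiv ℂ 0 (e g) ∈ J := Ideal.subset_span ⟨0, rfl⟩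
  have hJ1 : MvPowerSeries.pderiv ℂ 1 (e g) ∈ J := Ideal.subset_span ⟨1, rfl⟩
  have d1 : MvPowerSeries.pderiv ℂ 1 k = 0 := by
    ext v
    rw [MvPowerSeries.coeff_pderiv, hk1 _ (by simp), zero_mul, map_zero]
  have x1 : (MvPowerSeries.X 1 : P2) ∈ J := by
    rw [he, map_add, d1, zero_add, Derivation.leibniz_pow, Spl.pderiv_X, if_pos rfl] at hJ1
    have h2 : (MvPowerSeries.X 1 : P2) = MvPowerSeries.C (1 / 2 : ℂ) *
        ((2 : ℕ) • (MvPowerSeries.X 1 : P2) ^ (2 - 1) • (1 : P2)) := by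
      have h3 : (MvPowerSeries.C (1 / 2 : ℂ) * MvPowerSeries.C (2 : ℂ) : P2) = 1 := by
        rw [← map_mul]
        norm_num
      have h4 : (MvPowerSeries.C (2 : ℂ) : P2) = 2 := map_ofNat _ 2
      rw [h4] at h3
      simp only [smul_eq_mul, nsmul_eq_mul]
      push_cast
      linear_combination (-MvPowerSeries.X 1 : P2) * h3
    rw [h2]
    exact J.mul_mem_left _ hJ1
  have x0 : (MvPowerSeries.X 0 : P2) ^ (M - 1) ∈ J := by
    rw [he, map_add, Derivation.leibniz_pow, Spl.pderiv_X, if_neg (by decide), smul_zero,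
      smul_zero, add_zero, hw, Derivation.leibniz, Derivation.leibniz_pow, Spl.pderiv_X,
      if_pos rfl] at hJ0
    obtain ⟨M, rfl⟩ : ∃ M', M = M' + 1 := ⟨M - 1, by omega⟩
    rw [Nat.add_sub_cancel] at hJ0 ⊢
    have hu : IsUnit (((M + 1 : ℕ) : P2) * w + MvPowerSeries.X 0 * MvPowerSeries.pderiv ℂ 0 w) := by
      rw [MvPowerSeries.isUnit_iff_constantCoeff, isUnit_iff_ne_zero, map_add, map_mul, map_mul,
        MvPowerSeries.constantCoeff_X, zero_mul, add_zero, map_natCast]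
      exact mul_ne_zero (Nat.cast_ne_zero.2 (Nat.succ_ne_zero M)) hw0
    have h2 : (MvPowerSeries.X 0 : P2) ^ M *
        (((M + 1 : ℕ) : P2) * w + MvPowerSeries.X 0 * MvPowerSeries.pderiv ℂ 0 w) ∈ J := by
      have h3 : (MvPowerSeries.X 0 : P2) ^ M *
        (((M + 1 : ℕ) : P2) * w + MvPowerSeries.X 0 * MvPowerSeries.pderiv ℂ 0 w) =
        (MvPowerSeries.X 0 : P2) ^ (M + 1) • MvPowerSeries.pderiv ℂ 0 w +
          w • ((M + 1) • (MvPowerSeries.X 0 : P2) ^ M • (1 : P2)) := by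
        simp only [smul_eq_mul, nsmul_eq_mul]
        ring
      rw [h3]
      exact hJ0
    exact (Ideal.mul_unit_mem_iff_mem J hu).1 h2
  have hpow : ∀ i : Fin 2, (e (MvPowerSeries.X i)) ^ (M - 1) ∈ J := by
    intro i
    obtain ⟨a, b, hab⟩ := LocB.mem_max (f := e (MvPowerSeries.X i)) (by
      rw [constantCoeff_equiv, MvPowerSeries.constantCoeff_X])
    have h2 : (MvPowerSeries.X 0 * a + MvPowerSeries.X 1 * b) ^ (M - 1) -
        (MvPowerSeries.X 0 * a) ^ (M - 1) ∈ J := by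
      obtain ⟨c, hc⟩ := sub_dvd_pow_sub_pow (MvPowerSeries.X 0 * a + MvPowerSeries.X 1 * b)
        (MvPowerSeries.X 0 * a) (M - 1)
      rw [hc, add_sub_cancel_left]
      exact J.mul_mem_right _ (J.mul_mem_right _ x1)
    have h3 : (MvPowerSeries.X 0 * a) ^ (M - 1) ∈ J := by
      rw [mul_pow]
      exact J.mul_mem_right _ x0
    have h4 := J.add_mem h2 h3
    rw [sub_add_cancel, ← hab] at h4
    exact h4
  refine ⟨M - 1, fun i => ?_⟩
  have h2 : J ≤ (Ideal.span (Set.range fun j : Fin 2 => MvPowerSeries.pderiv ℂ j g)).comap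
      (e.symm : P2 →+* P2) := by
    rw [hJ, Ideal.span_le]
    rintro _ ⟨j, rfl⟩
    rw [SetLike.mem_coe, Ideal.mem_comap]
    show e.symm (MvPowerSeries.pderiv ℂ j (e g)) ∈ _
    rw [pderiv_equiv, map_sum]
    refine Ideal.sum_mem _ fun l _ => ?_
    rw [map_mul, AlgEquiv.symm_apply_apply]
    exact Ideal.mul_mem_left _ _ (Ideal.subset_span ⟨l, rfl⟩)
  have h3 := h2 (hpow i)
  rw [Ideal.mem_comap] at h3
  have h4 : (e.symm : P2 →+* P2) (e (MvPowerSeries.X i) ^ (M - 1)) =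
      MvPowerSeries.X i ^ (M - 1) := by
    show e.symm (e (MvPowerSeries.X i) ^ (M - 1)) = _
    rw [map_pow, AlgEquiv.symm_apply_apply]
  rw [h4] at h3
  exact h3

end YN

end MPb07157
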