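import Pool.Agent.Lib.MP_b07157_agYN.LocA
import Pool.Agent.Lib.MP_b07157_agYN.LocB

/-!
# Double points of plane curves
-/

noncomputable section

namespace MPb07157

open MvPolynomial

namespace YN

open PC

namespace LocC

theorem pd_comm (i j : Fin 2) (f : P2) : MvPowerSeries.pderiv ℂ i (MvPowerSeries.pderiv ℂ j f) =
    MvPowerSeries.pderiv ℂ j (MvPowerSeries.pderiv ℂ i f) := by
  by_cases h : i = j
  · rw [h]
  · ext v
    rw [MvPowerSeries.coeff_pderiv, MvPowerSeries.coeff_pderiv, MvPowerSeries.coeff_pderiv,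
      MvPowerSeries.coeff_pderiv, add_right_comm v (Finsupp.single i 1) (Finsupp.single j 1),
      Finsupp.add_apply, Finsupp.add_apply, Finsupp.single_eq_of_ne (Ne.symm h),
      Finsupp.single_eq_of_ne h]
    ring_nf

/-- The Jacobian determinant of an automorphism is a unit. -/
theorem isUnit_det (e : P2 ≃ₐ[ℂ] P2) : IsUnit
    (MvPowerSeries.pderiv ℂ 0 (e (MvPowerSeries.X 0)) *
      MvPowerSeries.pderiv ℂ 1 (e (MvPowerSeries.X 1)) -
    MvPowerSeries.pderiv ℂ 1 (e (MvPowerSeries.X 0)) *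
      MvPowerSeries.pderiv ℂ 0 (e (MvPowerSeries.X 1))) := by
  have h : ∀ i j : Fin 2, MvPowerSeries.pderiv ℂ i (MvPowerSeries.X j : P2) =
      MvPowerSeries.pderiv ℂ i (e (MvPowerSeries.X 0)) *
        e (MvPowerSeries.pderiv ℂ 0 (e.symm (MvPowerSeries.X j))) +
      MvPowerSeries.pderiv ℂ i (e (MvPowerSeries.X 1)) *
        e (MvPowerSeries.pderiv ℂ 1 (e.symm (MvPowerSeries.X j))) := by
    intro i j
    have h1 := pderiv_equiv e i (e.symm (MvPowerSeries.X j))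
    rwa [AlgEquiv.apply_symm_apply, Fin.sum_univ_two] at h1
  have h00 := h 0 0
  have h01 := h 0 1
  have h10 := h 1 0
  have h11 := h 1 1
  rw [Spl.pderiv_X, if_pos rfl] at h00 h11
  rw [Spl.pderiv_X, if_neg (by decide)] at h01 h10
  apply IsUnit.of_mul_eq_one
    (e (MvPowerSeries.pderiv ℂ 0 (e.symm (MvPowerSeries.X 0))) *
        e (MvPowerSeries.pderiv ℂ 1 (e.symm (MvPowerSeries.X 1))) -
      e (MvPowerSeries.pderiv ℂ 1 (e.symm (MvPowerSeries.X 0))) *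
        e (MvPowerSeries.pderiv ℂ 0 (e.symm (MvPowerSeries.X 1))))
  generalize MvPowerSeries.pderiv ℂ 0 (e (MvPowerSeries.X 0)) = a00 at *
  generalize MvPowerSeries.pderiv ℂ 1 (e (MvPowerSeries.X 0)) = a10 at *
  generalize MvPowerSeries.pderiv ℂ 0 (e (MvPowerSeries.X 1)) = a01 at *
  generalize MvPowerSeries.pderiv ℂ 1 (e (MvPowerSeries.X 1)) = a11 at *
  generalize e (MvPowerSeries.pderiv ℂ 0 (e.symm (MvPowerSeries.X 0))) = k00 at *
  generalize e (MvPowerSeries.pderiv ℂ 1 (e.symm (MvPowerSeries.X 0))) = k10 at *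
  generalize e (MvPowerSeries.pderiv ℂ 0 (e.symm (MvPowerSeries.X 1))) = k01 at *
  generalize e (MvPowerSeries.pderiv ℂ 1 (e.symm (MvPowerSeries.X 1))) = k11 at *
  have e1 : (a00 * k00 + a01 * k10) * (a10 * k01 + a11 * k11) -
      (a00 * k01 + a01 * k11) * (a10 * k00 + a11 * k10) = 1 := by
    rw [← h00, ← h11, ← h01, ← h10]
    ring
  linear_combination e1

/-- The ideal `(y, x^{M-1})` is the Jacobian ideal of the normal form. -/
theorem jac_normal {g k : P2} {M : ℕ} (hg : g = k + MvPowerSeries.X 1 ^ 2)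
    (hk1 : ∀ v : Fin 2 →₀ ℕ, v 1 ≠ 0 → MvPowerSeries.coeff v k = 0) (hM : 2 ≤ M)
    (hk2 : ∀ j < M, MvPowerSeries.coeff (ex j 0) k = 0)
    (hk3 : MvPowerSeries.coeff (ex M 0) k ≠ 0) :
    (MvPowerSeries.X 1 : P2) ∈ Ideal.span (Set.range fun j : Fin 2 => MvPowerSeries.pderiv ℂ j g) ∧
      (MvPowerSeries.X 0 : P2) ^ (M - 1) ∈
        Ideal.span (Set.range fun j : Fin 2 => MvPowerSeries.pderiv ℂ j g) := by
  obtain ⟨w, hw⟩ : (MvPowerSeries.X 0 : P2) ^ M ∣ k := by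
    rw [MvPowerSeries.X_pow_dvd_iff]
    intro v hv
    by_cases h : v 1 = 0
    · rw [LocB.eq_ex h]
      exact hk2 _ hv
    · exact hk1 v h
  have hw0 : MvPowerSeries.constantCoeff w ≠ 0 := by
    intro h2
    apply hk3
    have h3 : ex M 0 = Finsupp.single 0 M := by simp [ex]
    rw [hw, h3]
    have h4 := MvPowerSeries.coeff_add_monomial_mul (R := ℂ) (Finsupp.single (0 : Fin 2) M) 0 w 1
    rw [MvPowerSeries.X_pow_eq]
    rw [add_zero] at h4
    rw [h4, MvPowerSeries.coeff_zero_eq_constantCoeff_apply, h2, mul_zero]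
  set J : Ideal P2 := Ideal.span (Set.range fun j : Fin 2 => MvPowerSeries.pderiv ℂ j g)
    with hJ
  have hJ0 : MvPowerSeries.pderiv ℂ 0 g ∈ J := Ideal.subset_span ⟨0, rfl⟩
  have hJ1 : MvPowerSeries.pderiv ℂ 1 g ∈ J := Ideal.subset_span ⟨1, rfl⟩
  have d1 : MvPowerSeries.pderiv ℂ 1 k = 0 := by
    ext v
    rw [MvPowerSeries.coeff_pderiv, hk1 _ (by simp), zero_mul, map_zero]
  have x1 : (MvPowerSeries.X 1 : P2) ∈ J := by
    rw [hg, map_add, d1, zero_add, Derivation.leibniz_pow, Spl.pderiv_X, if_pos rfl] at hJ1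
    have h2 : (MvPowerSeries.X 1 : P2) = MvPowerSeries.C (1 / 2 : ℂ) *
        ((2 : ℕ) • (MvPowerSeries.X 1 : P2) ^ (2 - 1) • (1 : P2)) := by
      have h3 : (MvPowerSeries.C (1 / 2 : ℂ) * MvPowerSeries.C (2 : ℂ) : P2) = 1 := by
        rw [← map_mul]
        norm_num
      have h4 : (MvPowerSeries.C (2 : ℂ) : P2) = 2 := map_ofNat _ 2
      rw [h4] at h3
      simp only [smul_eq_mul, nsmul_eq_mul]
      push_cast
      linear_combination (-MvPowerSeries.X 1 : P2) * h3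
    rw [h2]
    exact J.mul_mem_left _ hJ1
  refine ⟨x1, ?_⟩
  rw [hg, map_add, Derivation.leibniz_pow, Spl.pderiv_X, if_neg (by decide), smul_zero,
    smul_zero, add_zero, hw, Derivation.leibniz, Derivation.leibniz_pow, Spl.pderiv_X,
    if_pos rfl] at hJ0
  obtain ⟨M, rfl⟩ : ∃ M', M = M' + 1 := ⟨M - 1, by omega⟩
  rw [Nat.add_sub_cancel] at hJ0 ⊢
  have hu : IsUnit (((M + 1 : ℕ) : P2) * w + MvPowerSeries.X 0 * MvPowerSeries.pderiv ℂ 0 w) := by
    rw [MvPowerSeries.isUnit_iff_constantCoeff, isUnit_iff_ne_zero, map_add, map_mul, map_mul,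
      MvPowerSeries.constantCoeff_X, zero_mul, add_zero, map_natCast]
    exact mul_ne_zero (Nat.cast_ne_zero.2 (Nat.succ_ne_zero M)) hw0
  have h2 : (MvPowerSeries.X 0 : P2) ^ M *
      (((M + 1 : ℕ) : P2) * w + MvPowerSeries.X 0 * MvPowerSeries.pderiv ℂ 0 w) ∈ J := by
    have h3 : (MvPowerSeries.X 0 : P2) ^ M *
      (((M + 1 : ℕ) : P2) * w + MvPowerSeries.X 0 * MvPowerSeries.pderiv ℂ 0 w) =
      (MvPowerSeries.X 0 : P2) ^ (M + 1) • MvPowerSeries.pderiv ℂ 0 w +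
        w • ((M + 1) • (MvPowerSeries.X 0 : P2) ^ M • (1 : P2)) := by
      simp only [smul_eq_mul, nsmul_eq_mul]
      ring
    rw [h3]
    exact hJ0
  exact (Ideal.mul_unit_mem_iff_mem J hu).1 h2

end LocC

/-- **The local statement at a double point.** Pull back by the `e` of `exists_normal`: with the form
`ω = -β_1 dX_0 + β_0 dX_1` (`dg ∧ ω = (∑ β_i ∂_i g) dX_0 ∧ dX_1`, `dω = (∑ ∂_i β_i) dX_0 ∧ dX_1`),
`ω'_j = ∑_i e(ω_i) ∂_j(e X_i)`, `Δ = det ∂_j(e X_i)`, `α' = Δ e(α)`, the equations `e1`, `e2` hold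
for `α'`, `ω'`, `e g`, with `ρ = Δ`. Then use `mem_of_normal`. -/
theorem mem_of_double {g : P2} (h0 : MvPowerSeries.constantCoeff g = 0)
    (h1 : ∀ i, MvPowerSeries.constantCoeff (MvPowerSeries.pderiv ℂ i g) = 0) {i j : Fin 2}
    (hij : MvPowerSeries.constantCoeff (MvPowerSeries.pderiv ℂ i (MvPowerSeries.pderiv ℂ j g)) ≠ 0)
    (hiso : IsoSing g) {d m : ℕ} (hd : 0 < d) (hd6 : d ≤ 6) (hm : 0 < m)
    {α : P2} {β : Fin 2 → P2}
    (e1 : (d : P2) * α * g + ∑ i, β i * MvPowerSeries.pderiv ℂ i g = 0)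
    (e2 : ((d * m + 3 : ℕ) : P2) * α + ∑ i, MvPowerSeries.pderiv ℂ i (β i) = g ^ m) :
    ∃ c : Fin 2 → P2, α = ∑ i, c i * MvPowerSeries.pderiv ℂ i g := by
  classical
  obtain ⟨e, k, M, he, hk1, hM, hk2, hk3⟩ := exists_normal h0 h1 hij hiso
  obtain ⟨y1, y0⟩ := LocC.jac_normal he hk1 hM hk2 hk3
  have d1 : MvPowerSeries.pderiv ℂ 1 k = 0 := by
    ext v
    rw [MvPowerSeries.coeff_pderiv, hk1 _ (by simp), zero_mul, map_zero]
  have hu := LocC.isUnit_det e
  -- the chain rule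
  have hc : ∀ (h : P2) (j : Fin 2), MvPowerSeries.pderiv ℂ j (e h) =
      MvPowerSeries.pderiv ℂ j (e (MvPowerSeries.X 0)) * e (MvPowerSeries.pderiv ℂ 0 h) +
      MvPowerSeries.pderiv ℂ j (e (MvPowerSeries.X 1)) * e (MvPowerSeries.pderiv ℂ 1 h) := by
    intro h j
    rw [pderiv_equiv, Fin.sum_univ_two]
  have hcm : ∀ l : Fin 2, MvPowerSeries.pderiv ℂ 0 (MvPowerSeries.pderiv ℂ 1
      (e (MvPowerSeries.X l))) = MvPowerSeries.pderiv ℂ 1 (MvPowerSeries.pderiv ℂ 0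
      (e (MvPowerSeries.X l))) := fun l => LocC.pd_comm _ _ _
  set J00 := MvPowerSeries.pderiv ℂ 0 (e (MvPowerSeries.X 0)) with hJ00
  set J10 := MvPowerSeries.pderiv ℂ 1 (e (MvPowerSeries.X 0)) with hJ10
  set J01 := MvPowerSeries.pderiv ℂ 0 (e (MvPowerSeries.X 1)) with hJ01
  set J11 := MvPowerSeries.pderiv ℂ 1 (e (MvPowerSeries.X 1)) with hJ11
  set Δ := J00 * J11 - J10 * J01 with hΔ
  -- the derivatives of `e g`
  have g0 : MvPowerSeries.pderiv ℂ 0 (e g) = MvPowerSeries.pderiv ℂ 0 k := by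
    rw [he, map_add, Derivation.leibniz_pow, Spl.pderiv_X, if_neg (by decide), smul_zero,
      smul_zero, add_zero]
  have g1 : MvPowerSeries.pderiv ℂ 1 (e g) = 2 * MvPowerSeries.X 1 := by
    rw [he, map_add, d1, Derivation.leibniz_pow, Spl.pderiv_X, if_pos rfl, zero_add]
    simp [nsmul_eq_mul]
  have f1 := congrArg e e1
  have f2 := congrArg e e2
  rw [Fin.sum_univ_two] at f1 f2
  rw [map_add, map_add, map_mul, map_mul, map_mul, map_mul, map_natCast, map_zero] at f1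
  rw [map_add, map_add, map_mul, map_natCast, map_pow] at f2
  -- the new vector
  set β' : Fin 2 → P2 := ![J11 * e (β 0) - J10 * e (β 1), -J01 * e (β 0) + J00 * e (β 1)] with hβ'
  have b0 : β' 0 = J11 * e (β 0) - J10 * e (β 1) := rfl
  have b1 : β' 1 = -J01 * e (β 0) + J00 * e (β 1) := rfl
  have E1 : (d : P2) * (Δ * e α) * (k + MvPowerSeries.X 1 ^ 2) +
      (β' 0 * MvPowerSeries.pderiv ℂ 0 k + β' 1 * (2 * MvPowerSeries.X 1)) = 0 := by
    rw [← he, ← g0, ← g1, hc g 0, hc g 1, b0, b1, hΔ]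
    linear_combination (J00 * J11 - J10 * J01) * f1
  have E2 : ((d * m + 3 : ℕ) : P2) * (Δ * e α) + (MvPowerSeries.pderiv ℂ 0 (β' 0) +
      MvPowerSeries.pderiv ℂ 1 (β' 1)) = Δ * (k + MvPowerSeries.X 1 ^ 2) ^ m := by
    rw [← he, b0, b1, map_sub, map_add, Derivation.leibniz, Derivation.leibniz,
      Derivation.leibniz, Derivation.leibniz, map_neg]
    simp only [smul_eq_mul]
    rw [hc (β 0) 0, hc (β 0) 1, hc (β 1) 0, hc (β 1) 1, hΔ]
    have c0 := hcm 0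
    have c1 := hcm 1
    rw [← hJ10, ← hJ00] at c0
    rw [← hJ11, ← hJ01] at c1
    linear_combination (J00 * J11 - J10 * J01) * f2 + e (β 0) * c1 - e (β 1) * c0
  obtain ⟨a, b, hab⟩ := mem_of_normal hk1 hM hk2 hk3 hd hd6 hm E1 E2
  set J : Ideal P2 := Ideal.span (Set.range fun j : Fin 2 => MvPowerSeries.pderiv ℂ j (e g))
    with hJ
  have m1 : Δ * e α ∈ J := by
    rw [hab]
    exact J.add_mem (J.mul_mem_left _ y0) (J.mul_mem_left _ y1)
  have m2 : e α ∈ J := by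
    rw [mul_comm] at m1
    exact (Ideal.mul_unit_mem_iff_mem J hu).1 m1
  have h2 : J ≤ (Ideal.span (Set.range fun j : Fin 2 => MvPowerSeries.pderiv ℂ j g)).comap
      (e.symm : P2 →+* P2) := by
    rw [hJ, Ideal.span_le]
    rintro _ ⟨j, rfl⟩
    rw [SetLike.mem_coe, Ideal.mem_comap]
    show e.symm (MvPowerSeries.pderiv ℂ j (e g)) ∈ _
    rw [pderiv_equiv, map_sum]
    refine Ideal.sum_mem _ fun l _ => ?_
    rw [map_mul, AlgEquiv.symm_apply_apply]
    exact Ideal.mul_mem_left _ _ (Ideal.subset_span ⟨l, rfl⟩)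
  have m3 := h2 m2
  rw [Ideal.mem_comap] at m3
  have m4 : (e.symm : P2 →+* P2) (e α) = α := e.symm_apply_apply α
  rw [m4, Ideal.mem_span_range_iff_exists_fun] at m3
  obtain ⟨c, hc⟩ := m3
  exact ⟨c, hc.symm⟩

end YN

end MPb07157
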