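import Pool.Agent.Lib.MP_b07157_agYN.Defs
import Pool.Agent.Lib.MP_b07157_agV.H1

/-!
# Double points in the normal form
-/

noncomputable section

namespace MPb07157

open MvPolynomial

namespace YN

open PC

namespace LocAux

/-- The restriction to `y = 0`. -/
def e0 : P2 →+* PowerSeries ℂ where
  toFun f := PowerSeries.mk fun i => MvPowerSeries.coeff (Finsupp.single 0 i) f
  map_one' := by
    ext i
    rw [PowerSeries.coeff_mk, MvPowerSeries.coeff_one, PowerSeries.coeff_one]
    by_cases h : i = 0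
    · rw [if_pos h, if_pos (by rw [h, Finsupp.single_zero])]
    · rw [if_neg h, if_neg (by rw [Finsupp.single_eq_zero]; exact h)]
  map_mul' f g := by
    classical
    ext i
    rw [PowerSeries.coeff_mk, MvPowerSeries.coeff_mul, PowerSeries.coeff_mul,
      Finsupp.antidiagonal_single, Finset.sum_map]
    refine Finset.sum_congr rfl fun p _ => ?_
    rw [PowerSeries.coeff_mk, PowerSeries.coeff_mk]
    rfl
  map_zero' := by
    ext i
    rw [PowerSeries.coeff_mk, map_zero, map_zero]
  map_add' f g := by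
    ext i
    rw [PowerSeries.coeff_mk, map_add, map_add, PowerSeries.coeff_mk, PowerSeries.coeff_mk]

theorem coeff_e0 (f : P2) (i : ℕ) :
    PowerSeries.coeff i (e0 f) = MvPowerSeries.coeff (Finsupp.single 0 i) f := by
  show PowerSeries.coeff i (PowerSeries.mk fun i => MvPowerSeries.coeff (Finsupp.single 0 i) f) = _
  rw [PowerSeries.coeff_mk]

theorem e0_X1 : e0 (MvPowerSeries.X 1) = 0 := by
  classical
  ext i
  rw [coeff_e0, MvPowerSeries.coeff_X, if_neg, map_zero]
  intro h
  have := DFunLike.congr_fun h 1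
  rw [Finsupp.single_eq_same, Finsupp.single_eq_of_ne (by decide)] at this
  exact zero_ne_one this

theorem e0_pderiv (f : P2) :
    e0 (MvPowerSeries.pderiv ℂ 0 f) = PowerSeries.derivative ℂ (e0 f) := by
  ext i
  rw [coeff_e0, MvPowerSeries.coeff_pderiv, PowerSeries.coeff_derivative, coeff_e0,
    ← Finsupp.single_add, Finsupp.single_eq_same]

/-- The computation in one variable. -/
theorem one_var {M : ℕ} (hM2 : 2 ≤ M) {K : PowerSeries ℂ} (hM : ∀ j < M, PowerSeries.coeff j K = 0)
    (hM' : PowerSeries.coeff M K ≠ 0) {d m : ℕ} (hd : 0 < d) (hd6 : d ≤ 6) (hm : 0 < m)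
    {A A₂ B B₂ C R : PowerSeries ℂ}
    (h1 : (d : PowerSeries ℂ) * A * K + B * PowerSeries.derivative ℂ K = 0)
    (h2 : (d : PowerSeries ℂ) * (A₂ * K + 2 * A) + B₂ * PowerSeries.derivative ℂ K + 4 * C = 0)
    (h3 : ((d * m + 3 : ℕ) : PowerSeries ℂ) * A + (PowerSeries.derivative ℂ B + C) =
      R * K ^ m) : ∀ j < M - 1, PowerSeries.coeff j A = 0 := by
  intro j
  induction j using Nat.strong_induction_on with
  | _ j ih =>
    intro hj
    obtain ⟨K₀, hK₀⟩ : (PowerSeries.X : PowerSeries ℂ) ^ M ∣ K := by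
      rw [PowerSeries.X_pow_dvd_iff]
      exact hM
    obtain ⟨A₀, hA₀⟩ : (PowerSeries.X : PowerSeries ℂ) ^ j ∣ A := by
      rw [PowerSeries.X_pow_dvd_iff]
      exact fun l hl => ih l hl (hl.trans hj)
    have hκ : PowerSeries.coeff M K = PowerSeries.coeff 0 K₀ := by
      rw [hK₀, PowerSeries.coeff_X_pow_mul', if_pos le_rfl, Nat.sub_self]
    have hc : PowerSeries.coeff j A = PowerSeries.coeff 0 A₀ := by
      rw [hA₀, PowerSeries.coeff_X_pow_mul', if_pos le_rfl, Nat.sub_self]
    obtain ⟨M', rfl⟩ : ∃ M', M = M' + 1 := ⟨M - 1, by omega⟩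
    rw [Nat.add_sub_cancel] at hj
    have hK' : PowerSeries.derivative ℂ K = PowerSeries.X ^ M' * (((M' + 1 : ℕ) : PowerSeries ℂ) *
        K₀ + PowerSeries.X * PowerSeries.derivative ℂ K₀) := by
      rw [hK₀, Derivation.leibniz, Derivation.leibniz_pow, PowerSeries.derivative_X]
      simp only [smul_eq_mul, nsmul_eq_mul, Nat.add_sub_cancel]
      push_cast
      ring
    -- the first equation
    have e1 : B * (((M' + 1 : ℕ) : PowerSeries ℂ) * K₀ + PowerSeries.X *
        PowerSeries.derivative ℂ K₀) = PowerSeries.X ^ (j + 1) * (-((d : PowerSeries ℂ) * A₀ * K₀)) := by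
      have hX : (PowerSeries.X : PowerSeries ℂ) ^ M' ≠ 0 := pow_ne_zero _ PowerSeries.X_ne_zero
      refine mul_left_cancel₀ hX ?_
      rw [hK'] at h1
      rw [hA₀] at h1
      have h4 : K = PowerSeries.X ^ (M' + 1) * K₀ := hK₀
      have h5 : (d : PowerSeries ℂ) * (PowerSeries.X ^ j * A₀) * (PowerSeries.X ^ (M' + 1) * K₀) +
          B * (PowerSeries.X ^ M' * (((M' + 1 : ℕ) : PowerSeries ℂ) * K₀ + PowerSeries.X *
            PowerSeries.derivative ℂ K₀)) = 0 := by
        rw [← h4]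
        exact h1
      linear_combination h5
    have hunit : IsUnit (((M' + 1 : ℕ) : PowerSeries ℂ) * K₀ + PowerSeries.X *
        PowerSeries.derivative ℂ K₀) := by
      rw [PowerSeries.isUnit_iff_constantCoeff, map_add, map_mul, map_mul, map_natCast,
        PowerSeries.constantCoeff_X, zero_mul, add_zero, isUnit_iff_ne_zero,
        ← PowerSeries.coeff_zero_eq_constantCoeff_apply]
      refine mul_ne_zero (Nat.cast_ne_zero.2 (Nat.succ_ne_zero M')) ?_
      rw [← hκ]
      exact hM'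
    obtain ⟨B₀, hB₀⟩ : (PowerSeries.X : PowerSeries ℂ) ^ (j + 1) ∣ B :=
      (hunit.dvd_mul_right).1 ⟨_, e1⟩
    have e2 : B₀ * (((M' + 1 : ℕ) : PowerSeries ℂ) * K₀ + PowerSeries.X *
        PowerSeries.derivative ℂ K₀) = -((d : PowerSeries ℂ) * A₀ * K₀) := by
      have hX : (PowerSeries.X : PowerSeries ℂ) ^ (j + 1) ≠ 0 :=
        pow_ne_zero _ PowerSeries.X_ne_zero
      refine mul_left_cancel₀ hX ?_
      rw [← e1, hB₀]
      ring
    have e3 : PowerSeries.coeff 0 B₀ * ((M' : ℂ) + 1) = -((d : ℂ) * PowerSeries.coeff 0 A₀) := by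
      have h4 := congrArg PowerSeries.constantCoeff e2
      rw [map_mul, map_add, map_mul, map_mul, map_neg, map_mul, map_mul, map_natCast,
        map_natCast, PowerSeries.constantCoeff_X, zero_mul, add_zero,
        ← PowerSeries.coeff_zero_eq_constantCoeff_apply,
        ← PowerSeries.coeff_zero_eq_constantCoeff_apply,
        ← PowerSeries.coeff_zero_eq_constantCoeff_apply] at h4
      have h5 : PowerSeries.coeff 0 K₀ ≠ 0 := by
        rw [← hκ]
        exact hM'
      refine mul_right_cancel₀ h5 ?_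
      push_cast at h4
      linear_combination h4
    -- the coefficients of `X ^ j`
    have f1 : PowerSeries.coeff j (PowerSeries.derivative ℂ B) =
        ((j : ℂ) + 1) * PowerSeries.coeff 0 B₀ := by
      rw [PowerSeries.coeff_derivative, hB₀, PowerSeries.coeff_X_pow_mul', if_pos le_rfl,
        Nat.sub_self, mul_comm]
    have f2 : PowerSeries.coeff j (A₂ * K) = 0 := by
      rw [hK₀, mul_left_comm, PowerSeries.coeff_X_pow_mul', if_neg (by omega)]
    have f3 : PowerSeries.coeff j (B₂ * PowerSeries.derivative ℂ K) = 0 := by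
      rw [hK', mul_left_comm, PowerSeries.coeff_X_pow_mul', if_neg (by omega)]
    have f4 : PowerSeries.coeff j (R * K ^ m) = 0 := by
      have h4 : R * K ^ m = PowerSeries.X ^ ((M' + 1) * m) * (R * K₀ ^ m) := by
        rw [pow_mul]
        conv_lhs => rw [hK₀]
        ring
      have h5 : M' + 1 ≤ (M' + 1) * m := Nat.le_mul_of_pos_right _ hm
      rw [h4, PowerSeries.coeff_X_pow_mul', if_neg (by omega)]
    have g2 := congrArg (PowerSeries.coeff j) h2
    have g3 := congrArg (PowerSeries.coeff j) h3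
    have n1 : ∀ (n : ℕ) (x : PowerSeries ℂ), PowerSeries.coeff j ((n : PowerSeries ℂ) * x) =
        (n : ℂ) * PowerSeries.coeff j x := fun n x => by
      rw [← nsmul_eq_mul, map_nsmul, nsmul_eq_mul]
    have n2 : PowerSeries.coeff j (2 * A) = 2 * PowerSeries.coeff j A := by
      have := n1 2 A
      exact_mod_cast this
    have n4 : PowerSeries.coeff j (4 * C) = 4 * PowerSeries.coeff j C := by
      have := n1 4 C
      exact_mod_cast this
    rw [map_add, map_add, n1, map_add, f2, f3, n2, n4, map_zero, zero_add, add_zero] at g2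
    rw [map_add, map_add, n1, f1, f4] at g3
    push_cast at g3
    rw [hc] at g2 g3 ⊢
    set c := PowerSeries.coeff 0 A₀ with hcdef
    have hM1 : ((M' : ℂ) + 1) ≠ 0 := by exact_mod_cast Nat.succ_ne_zero M'
    have key : ((2 * (d * m + 3) * (M' + 1) : ℕ) : ℂ) * c =
        ((2 * d * (j + 1) + d * (M' + 1) : ℕ) : ℂ) * c := by
      push_cast
      linear_combination (2 * ((M' : ℂ) + 1)) * g3 - (2 * ((j : ℂ) + 1)) * e3 -
        (((M' : ℂ) + 1) / 2) * g2
    by_contra hc0
    have key2 := mul_right_cancel₀ hc0 key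
    have key3 : 2 * (d * m + 3) * (M' + 1) = 2 * d * (j + 1) + d * (M' + 1) := by
      exact_mod_cast key2
    have l1 : d ≤ d * m := Nat.le_mul_of_pos_right _ hm
    have l2 : 2 * (d + 3) * (M' + 1) ≤ 2 * (d * m + 3) * (M' + 1) := by
      gcongr
    have l3 : 2 * d * (j + 1) < 2 * d * (M' + 1) := by
      gcongr
    have l4 : d * (M' + 1) ≤ 6 * (M' + 1) := by
      gcongr
    have l5 : 2 * (d + 3) * (M' + 1) = 2 * d * (M' + 1) + 6 * (M' + 1) := by ring
    omega

end LocAux

open LocAux in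
/-- The computation in the normal form `g = k(x) + y²`, `k` of order `M` in `x = X_0` (`k' k` are the
power series with `∂_1 k = 0`). Let `α = a(x) + ⋯` mod `y`, `a = c x^j + ⋯`, `j < M - 1`. Mod `y`:
`d a k + k' β_0 = 0`, so `β_0 = -(d c / M) x^{j+1} + ⋯`; the coefficient of `y²` of `e1`:
`∂_1 β_1 = -(d/2) a` mod `(y, x^{M-1})`; then the coefficient of `x^j` of `e2`:
`(d m + 3 - d/2 - d (j+1)/M) c = 0`, but this number is positive, since `j + 1 < M`, `m ≥ 1`,
`d ≤ 6`. So `α` belongs to `(y, x^{M-1})`. -/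
theorem mem_of_normal {k : P2} (hk : ∀ v : Fin 2 →₀ ℕ, v 1 ≠ 0 → MvPowerSeries.coeff v k = 0)
    {M : ℕ} (hM2 : 2 ≤ M) (hM : ∀ j < M, MvPowerSeries.coeff (ex j 0) k = 0)
    (hM' : MvPowerSeries.coeff (ex M 0) k ≠ 0) {d m : ℕ} (hd : 0 < d) (hd6 : d ≤ 6) (hm : 0 < m)
    {α ρ : P2} {β : Fin 2 → P2}
    (e1 : (d : P2) * α * (k + MvPowerSeries.X 1 ^ 2) +
      (β 0 * MvPowerSeries.pderiv ℂ 0 k + β 1 * (2 * MvPowerSeries.X 1)) = 0)
    (e2 : ((d * m + 3 : ℕ) : P2) * α + (MvPowerSeries.pderiv ℂ 0 (β 0) +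
      MvPowerSeries.pderiv ℂ 1 (β 1)) = ρ * (k + MvPowerSeries.X 1 ^ 2) ^ m) :
    ∃ a b : P2, α = a * MvPowerSeries.X 0 ^ (M - 1) + b * MvPowerSeries.X 1 := by
  classical
  have hex : ∀ j, ex j 0 = Finsupp.single 0 j := fun j => by
    unfold ex
    rw [Finsupp.single_zero, add_zero]
  have hDk : MvPowerSeries.pderiv ℂ 1 k = 0 := by
    ext v
    rw [MvPowerSeries.coeff_pderiv, hk, zero_mul, map_zero]
    rw [Finsupp.add_apply, Finsupp.single_eq_same]
    exact Nat.succ_ne_zero _
  have hDk' : MvPowerSeries.pderiv ℂ 1 (MvPowerSeries.pderiv ℂ 0 k) = 0 := by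
    ext v
    rw [MvPowerSeries.coeff_pderiv, MvPowerSeries.coeff_pderiv, hk, zero_mul, zero_mul, map_zero]
    rw [Finsupp.add_apply, Finsupp.add_apply, Finsupp.single_eq_same,
      Finsupp.single_eq_of_ne (by decide)]
    exact Nat.succ_ne_zero _
  have hDX : MvPowerSeries.pderiv ℂ 1 (MvPowerSeries.X 1 : P2) = 1 := MvPowerSeries.pderiv_X_self
  have hDd : ∀ n : ℕ, MvPowerSeries.pderiv ℂ 1 ((n : ℕ) : P2) = 0 := fun n =>
    Derivation.map_natCast _ n
  have hD2 : MvPowerSeries.pderiv ℂ 1 (2 : P2) = 0 := by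
    have := hDd 2
    exact_mod_cast this
  -- the derivatives of `e1`
  have s1 := congrArg (MvPowerSeries.pderiv ℂ 1) e1
  have s1' : (d : P2) * (MvPowerSeries.pderiv ℂ 1 α * (k + MvPowerSeries.X 1 ^ 2) +
      α * (2 * MvPowerSeries.X 1)) + (MvPowerSeries.pderiv ℂ 1 (β 0) * MvPowerSeries.pderiv ℂ 0 k +
        (MvPowerSeries.pderiv ℂ 1 (β 1) * (2 * MvPowerSeries.X 1) + β 1 * 2)) = 0 := by
    rw [map_add, map_add, map_zero, Derivation.leibniz, Derivation.leibniz, Derivation.leibniz,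
      Derivation.leibniz, Derivation.leibniz, map_add, Derivation.leibniz_pow, hDk, hDk', hDX, hDd,
      hD2] at s1
    simp only [smul_eq_mul, nsmul_eq_mul] at s1
    push_cast at s1
    linear_combination s1
  have s2 := congrArg (MvPowerSeries.pderiv ℂ 1) s1'
  have s2' : (d : P2) * (MvPowerSeries.pderiv ℂ 1 (MvPowerSeries.pderiv ℂ 1 α) *
      (k + MvPowerSeries.X 1 ^ 2) + 4 * MvPowerSeries.pderiv ℂ 1 α * MvPowerSeries.X 1 + 2 * α) +
      (MvPowerSeries.pderiv ℂ 1 (MvPowerSeries.pderiv ℂ 1 (β 0)) * MvPowerSeries.pderiv ℂ 0 k +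
        (MvPowerSeries.pderiv ℂ 1 (MvPowerSeries.pderiv ℂ 1 (β 1)) * (2 * MvPowerSeries.X 1) +
          4 * MvPowerSeries.pderiv ℂ 1 (β 1))) = 0 := by
    simp only [map_add, map_zero, Derivation.leibniz, Derivation.leibniz_pow, hDk, hDk', hDX, hDd,
      hD2, smul_eq_mul, nsmul_eq_mul] at s2
    push_cast at s2
    linear_combination s2
  -- the restrictions to `y = 0`
  have hK : ∀ j, PowerSeries.coeff j (e0 k) = MvPowerSeries.coeff (ex j 0) k := fun j => by
    rw [coeff_e0, hex]
  have r1 := congrArg e0 e1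
  have r2 := congrArg e0 s2'
  have r3 := congrArg e0 e2
  simp only [map_add, map_mul, map_pow, map_natCast, map_ofNat, map_zero, e0_X1, e0_pderiv] at r1 r2 r3
  have hA := one_var hM2 (K := e0 k) (fun j hj => by rw [hK]; exact hM j hj)
    (by rw [hK]; exact hM') hd hd6 hm (A := e0 α)
    (A₂ := e0 (MvPowerSeries.pderiv ℂ 1 (MvPowerSeries.pderiv ℂ 1 α))) (B := e0 (β 0))
    (B₂ := e0 (MvPowerSeries.pderiv ℂ 1 (MvPowerSeries.pderiv ℂ 1 (β 0))))
    (C := e0 (MvPowerSeries.pderiv ℂ 1 (β 1))) (R := e0 ρ)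
    (by linear_combination r1) (by linear_combination r2) (by
      have h4 : (e0 k + 0 ^ 2 : PowerSeries ℂ) = e0 k := by ring
      rw [h4] at r3
      exact r3)
  -- the conclusion
  let a : P2 := fun v => if v 1 = 0 then
    MvPowerSeries.coeff (Finsupp.single 0 (v 0 + (M - 1))) α else 0
  have ha : ∀ v, MvPowerSeries.coeff v a = if v 1 = 0 then
    MvPowerSeries.coeff (Finsupp.single 0 (v 0 + (M - 1))) α else 0 := fun v => rfl
  have hdvd : (MvPowerSeries.X 1 : P2) ∣ α - a * MvPowerSeries.X 0 ^ (M - 1) := by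
    rw [MvPowerSeries.X_dvd_iff]
    intro v hv
    have hv0 : v = Finsupp.single 0 (v 0) := by
      ext i
      rcases (show i = 0 ∨ i = 1 by omega) with h | h
      · rw [h, Finsupp.single_eq_same]
      · rw [h, hv, Finsupp.single_eq_of_ne (by decide)]
    rw [map_sub, MvPowerSeries.X_pow_eq, MvPowerSeries.coeff_mul_monomial, mul_one]
    split_ifs with h
    · have h5 : M - 1 ≤ v 0 := by
        have := h 0
        rwa [Finsupp.single_eq_same] at this
      rw [ha, Finsupp.tsub_apply, Finsupp.tsub_apply, hv, Nat.zero_sub, if_pos rfl,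
        Finsupp.single_eq_same, Nat.sub_add_cancel h5, ← hv0, sub_self]
    · have h5 : v 0 < M - 1 := by
        by_contra h6
        apply h
        rw [Finsupp.single_le_iff]
        omega
      rw [sub_zero, hv0, ← coeff_e0]
      exact hA _ h5
  obtain ⟨b, hb⟩ := hdvd
  exact ⟨a, b, by linear_combination hb⟩

end YN

end MPb07157
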