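import Pool.Agent.Lib.MP_b07157_agYN.NonExD
import Pool.Agent.Lib.MP_b07157_agYN.NSD
import Pool.Agent.Lib.MP_b07157_agYX.Main2

/-!
# Isolated surface singularities of multiplicity at most six, double points
-/

noncomputable section

namespace MPb07157

open MvPolynomial

/-- **Isolated surface singularities of multiplicity `3 ≤ d ≤ 6` whose tangent cone `f_d = 0` is a
reduced curve with only double points**; if `d = 4`, each linear vector field which kills `f_4` has
divergence zero. -/
theorem SmcLoc.of_double {f : MvPolynomial (Fin 3) ℂ} {d : ℕ} (hd3 : 3 ≤ d) (hd6 : d ≤ 6)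
    (hlow : ∀ j < d, homogeneousComponent j f = 0) (hsq : Squarefree (homogeneousComponent d f))
    (hI : YX.Isol f) (hD : YN.DoubleCurve (homogeneousComponent d f))
    (h4 : d = 4 → NS (homogeneousComponent d f)) : SmcLoc f := by
  refine SmcLoc.of_tc2 (d := d) (e := 1) (by omega) one_pos
    ⟨hlow, fun j h0 h1 => absurd h1 (by omega), hsq,
      fun q hq hs => Or.inr (Or.inr ⟨hd6, hI, hD q hq hs⟩)⟩ ?_
  rcases Nat.lt_or_ge 3 d with h | h
  · refine Or.inr (Or.inr (YN.nonEx_of_double (by omega) hd6
      (homogeneousComponent_isHomogeneous d f) hsq hD ?_))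
    rcases Nat.lt_or_ge 4 d with h' | h'
    · exact YN.ns_of_double h' (homogeneousComponent_isHomogeneous d f) hsq.ne_zero hD
    · exact h4 (by omega)
  · exact Or.inl (by omega)

end MPb07157
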