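import Pool.Agent.Lib.MP_b07157_agYN.Depth
import Pool.Agent.Lib.MP_b07157_agYN.Loc
import Pool.Agent.Lib.MP_b07157_agYN.ChartA
import Pool.Agent.Lib.MP_b07157_agYN.ChartB
import Pool.Agent.Lib.MP_b07157_agYN.BadA
import Pool.Agent.Lib.MP_b07157_agYX.Nf

/-!
# The power `F^(-3/d)` is not a sum of derivatives
-/

noncomputable section

namespace MPb07157

open MvPolynomial

namespace YN

open PC SI

/-- The derivatives of the germ in the chart. -/
private theorem pderiv_gch' (F : MvPolynomial (Fin 3) ℂ) (q : Fin 3 → ℂ) (j₀ : Fin 3)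
    (i : Fin 2) : pderiv i (gch F q j₀) = gch (pderiv (j₀.succAbove i) F) q j₀ := by
  unfold gch
  induction F using MvPolynomial.induction_on with
  | C a => simp
  | add p r hp hr => simp only [map_add, hp, hr]
  | mul_X p l hp =>
    rw [map_mul, aeval_X, Derivation.leibniz, hp, Derivation.leibniz, map_add, smul_eq_mul,
      smul_eq_mul, smul_eq_mul, smul_eq_mul, map_mul, map_mul, aeval_X]
    rcases Fin.eq_self_or_eq_succAbove j₀ l with rfl | ⟨m, rfl⟩
    · rw [Fin.insertNth_apply_same, pderiv_one, pderiv_X_of_ne (Fin.succAbove_ne _ _).symm]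
      simp
    · rw [Fin.insertNth_apply_succAbove, map_add, pderiv_C, add_zero]
      by_cases h : m = i
      · subst h
        rw [pderiv_X_self, pderiv_X_self, map_one]
      · rw [pderiv_X_of_ne h, pderiv_X_of_ne (fun hh => h (Fin.succAbove_right_injective hh))]
        simp

private theorem constantCoeff_gch' (F : MvPolynomial (Fin 3) ℂ) {q : Fin 3 → ℂ} {j₀ : Fin 3}
    (hq : q j₀ = 1) : constantCoeff (gch F q j₀) = eval q F := by
  unfold gch
  induction F using MvPolynomial.induction_on with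
  | C a => simp
  | add p r hp hr => simp only [map_add, hp, hr]
  | mul_X p l hp =>
    rw [map_mul, map_mul, map_mul, hp, aeval_X, eval_X]
    congr 1
    rcases Fin.eq_self_or_eq_succAbove j₀ l with rfl | ⟨m, rfl⟩
    · rw [Fin.insertNth_apply_same, map_one, hq]
    · rw [Fin.insertNth_apply_succAbove]
      simp

private theorem cc_coe (f : MvPolynomial (Fin 2) ℂ) :
    MvPowerSeries.constantCoeff (f : P2) = constantCoeff f := by
  rw [← MvPowerSeries.coeff_zero_eq_constantCoeff_apply, MvPolynomial.coeff_coe]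
  rfl

private theorem pd_comm3 (i j : Fin 3) (F : MvPolynomial (Fin 3) ℂ) :
    pderiv i (pderiv j F) = pderiv j (pderiv i F) := by
  induction F using MvPolynomial.induction_on with
  | C a => simp
  | add p r hp hr => simp only [map_add, hp, hr]
  | mul_X p l hp =>
    have hX : ∀ a b : Fin 3, pderiv a (pderiv b (X l : MvPolynomial (Fin 3) ℂ)) = 0 := by
      intro a b
      by_cases h : l = b
      · subst h
        rw [pderiv_X_self, pderiv_one]
      · rw [pderiv_X_of_ne h, map_zero]
    simp only [Derivation.leibniz, map_add, smul_eq_mul, hp, hX]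
    ring

/-- A nonzero second derivative in the chart. -/
private theorem exists_hess_ne {F : MvPolynomial (Fin 3) ℂ} {d : ℕ} (hF : F.IsHomogeneous d)
    {q : Fin 3 → ℂ} {j₀ : Fin 3} (hq : q j₀ = 1) (hs : ∀ j, eval q (pderiv j F) = 0)
    {i j : Fin 3} (hh : eval q (pderiv i (pderiv j F)) ≠ 0) :
    ∃ l m : Fin 2, eval q (pderiv (j₀.succAbove l) (pderiv (j₀.succAbove m) F)) ≠ 0 := by
  by_contra hcon
  push Not at hcon
  have hHq : ∀ i, ∑ j, eval q (pderiv i (pderiv j F)) * q j = 0 := by
    intro i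
    have h1 := (hF.pderiv (i := i)).sum_X_mul_pderiv
    have h2 := congrArg (eval q) h1
    rw [map_sum, map_nsmul, hs i, smul_zero] at h2
    rw [← h2]
    refine Finset.sum_congr rfl fun j _ => ?_
    rw [map_mul, eval_X, mul_comm, pd_comm3]
  have h1 : ∀ l : Fin 2, eval q (pderiv (j₀.succAbove l) (pderiv j₀ F)) = 0 := by
    intro l
    have h2 := hHq (j₀.succAbove l)
    rw [Fin.sum_univ_succAbove _ j₀, hq, mul_one, Finset.sum_eq_zero, add_zero] at h2
    · exact h2
    · intro m _
      rw [hcon l m, zero_mul]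
  have h3 : eval q (pderiv j₀ (pderiv j₀ F)) = 0 := by
    have h2 := hHq j₀
    rw [Fin.sum_univ_succAbove _ j₀, hq, mul_one, Finset.sum_eq_zero, add_zero] at h2
    · exact h2
    · intro m _
      rw [pd_comm3, h1 m, zero_mul]
  apply hh
  rcases Fin.eq_self_or_eq_succAbove j₀ i with rfl | ⟨l, rfl⟩
  · rcases Fin.eq_self_or_eq_succAbove i j with rfl | ⟨m, rfl⟩
    · exact h3
    · rw [pd_comm3]
      exact h1 m
  · rcases Fin.eq_self_or_eq_succAbove j₀ j with rfl | ⟨m, rfl⟩
    · exact h1 l
    · exact hcon l m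

/-- Values of a form at a multiple of a point. -/
private theorem eval_smul_hom {S : MvPolynomial (Fin 3) ℂ} {l : ℕ} (hS : S.IsHomogeneous l)
    (c : ℂ) (q : Fin 3 → ℂ) : eval (c • q) S = c ^ l * eval q S := by
  rw [eval_eq', eval_eq', Finset.mul_sum]
  refine Finset.sum_congr rfl fun v hv => ?_
  have h1 : ∑ i, v i = l := by
    have := hS (mem_support_iff.1 hv)
    rw [← this]
    simp [Finsupp.weight_apply, Finsupp.sum_fintype]
  simp only [Pi.smul_apply, smul_eq_mul, mul_pow, Finset.prod_mul_distrib]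
  rw [Finset.prod_pow_eq_pow_sum, h1]
  ring

/-- **The power `F^(-3/d)`** of a squarefree form of degree `d ≤ 6` such that all singular points
of the curve `F = 0` are double points is not a sum of derivatives, if each linear vector field
which kills `F` has divergence zero. -/
theorem nonEx_of_double {F : MvPolynomial (Fin 3) ℂ} {d : ℕ} (hd : 2 ≤ d) (hd6 : d ≤ 6)
    (hF : F.IsHomogeneous d) (hsq : Squarefree F) (hD : DoubleCurve F) (hNS : NS F) :
    NonEx F (3 / (d : ℂ)) := by
  by_contra hne
  have hd0 : 0 < d := by omega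
  obtain ⟨m, hm⟩ := bad_of_not_nonEx hd0 hF hsq.ne_zero hne
  induction m with
  | zero =>
    obtain ⟨v, hv, hvF, hdiv⟩ := hm.homog hF
    have h1 := hNS v (fun i => by simpa using hv i) hvF
    rw [h1, pow_zero] at hdiv
    exact zero_ne_one hdiv
  | succ m ih =>
    obtain ⟨v, hv, hvF, hdiv⟩ := hm.homog hF
    refine ih (Bad.pred hd0 hF (isKos_of_local hd0 hF hsq hvF fun p hp hs => ?_) hdiv)
    obtain ⟨j₀, hj⟩ := Function.ne_iff.1 hp
    rw [Pi.zero_apply] at hj
    set q : Fin 3 → ℂ := (p j₀)⁻¹ • p with hqdef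
    have hpq : p = p j₀ • q := by
      rw [hqdef, smul_smul, mul_inv_cancel₀ hj, one_smul]
    have hq : q j₀ = 1 := by
      rw [hqdef, Pi.smul_apply, smul_eq_mul, inv_mul_cancel₀ hj]
    have hq0 : q ≠ 0 := by
      intro h
      rw [h] at hq
      exact zero_ne_one hq
    have hsq' : ∀ j, eval q (pderiv j F) = 0 := by
      intro j
      rw [hqdef, eval_smul_hom (hF.pderiv (i := j)), hs j, mul_zero]
    obtain ⟨i, j, hij⟩ := hD q hq0 hsq'
    obtain ⟨l, l', hl⟩ := exists_hess_ne hF hq hsq' hij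
    have hFq : eval q F = 0 := by
      have h1 := congrArg (eval q) hF.sum_X_mul_pderiv
      rw [map_sum, map_nsmul, Finset.sum_eq_zero (fun j _ => by
        rw [map_mul, hsq' j, mul_zero])] at h1
      rw [nsmul_eq_mul] at h1
      exact (mul_eq_zero.1 h1.symm).resolve_left (by exact_mod_cast hd0.ne')
    have h0 : MvPowerSeries.constantCoeff (gch F q j₀ : P2) = 0 := by
      rw [cc_coe, constantCoeff_gch' _ hq, hFq]
    have h1 : ∀ i, MvPowerSeries.constantCoeff
        (MvPowerSeries.pderiv ℂ i (gch F q j₀ : P2)) = 0 := by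
      intro i
      rw [MvPowerSeries.pderiv_coe, cc_coe, pderiv_gch', constantCoeff_gch' _ hq]
      exact hsq' _
    have h2 : MvPowerSeries.constantCoeff (MvPowerSeries.pderiv ℂ l
        (MvPowerSeries.pderiv ℂ l' (gch F q j₀ : P2))) ≠ 0 := by
      rw [MvPowerSeries.pderiv_coe, MvPowerSeries.pderiv_coe, cc_coe, pderiv_gch', pderiv_gch',
        constantCoeff_gch' _ hq]
      exact hl
    have hiso := isoSing_gch hF hsq hq
    obtain ⟨e1, e2⟩ := chart_eqs hF hv hvF hdiv q j₀
    have e1' := congrArg (MvPolynomial.coeToMvPowerSeries.ringHom (R := ℂ) (σ := Fin 2)) e1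
    have e2' := congrArg (MvPolynomial.coeToMvPowerSeries.ringHom (R := ℂ) (σ := Fin 2)) e2
    rw [map_add, map_mul, map_mul, map_natCast, map_sum, map_zero] at e1'
    rw [map_add, map_mul, map_natCast, map_sum, map_pow] at e2'
    simp only [map_mul, MvPolynomial.coeToMvPowerSeries.ringHom_apply,
      ← MvPowerSeries.pderiv_coe] at e1' e2'
    obtain ⟨c, hc⟩ := mem_of_double h0 h1 h2 hiso hd0 hd6 (Nat.succ_pos m) e1' e2'
    obtain ⟨S, k, hS, hSq, hk⟩ := local_kos hd hF hv hvF hq (jac_primary h0 h1 h2 hiso) hc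
    refine ⟨S, ?_, hk⟩
    rw [hpq, eval_smul_hom hS]
    exact mul_ne_zero (pow_ne_zero _ hj) hSq

end YN

end MPb07157
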